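import Pool.Agent.Zk3.CL.Spec
import Pool.Agent.Zk3.CL.Local2
import Pool.Agent.Zk2.DH.ZP0
import Pool.Agent.Zk69.DH.Basic
import Pool.Agent.Zk69.DH.Det
import Pool.Agent.Y24.F1

set_option autoImplicit false

/-! Fixed distance from the critical line. -/

namespace Pool.Agent.Zk3.CL

open Complex Filter Topology MeasureTheory Set
open Pool.Agent.Zk1.DH
open Pool.Agent.Zk69.DH
open Pool.Agent.Zk2.DH (GG rough_one GG_far2)

/-- Bounds of `ζ/PP` at a good height. -/
lemma mac_G {κ1 κ ρl a0 W : ℝ} (hκ1 : 0 < κ1) (hκ11 : κ1 ≤ 1) (hκ : 0 < κ) (hκ8 : κ ≤ 1 / 8)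
    (hρl : ρl = 8 / κ1 + 8) (ha0 : 0 < a0) (hW : W = 5 * ρl + 1) :
    ∃ M T0 : ℝ, 1 ≤ M ∧ 2 ≤ T0 ∧ ∀ T δ t : ℝ, T0 ≤ T → κ1 ≤ δ → δ ≤ 1 / 2 → T / 2 ≤ t → t ≤ 3 * T →
      (∀ z : ℂ, (1 - κ) * δ ≤ z.re → |z.im - t| ≤ W → ‖logDeriv (PP (T ^ a0)) (1 / 2 + z)‖ ≤ Real.log T) →
      (∀ w : ℂ, 1 - κ / 2 ≤ w.re → w.re ≤ 2 * ρl → |w.im| ≤ 5 * ρl →
        AnalyticAt ℂ (fun w => riemannZeta (1 / 2 + (I * t + δ * w)) / PP (T ^ a0) (1 / 2 + (I * t + δ * w))) w ∧
        ‖riemannZeta (1 / 2 + (I * t + δ * w)) / PP (T ^ a0) (1 / 2 + (I * t + δ * w))‖ ≤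
          Real.exp (M * (δ * Real.log T / 2))) ∧
      (∀ w : ℂ, ρl / 2 - 1 ≤ w.re → w.re ≤ 2 * ρl → |w.im| ≤ 5 * ρl →
        ‖riemannZeta (1 / 2 + (I * t + δ * w)) / PP (T ^ a0) (1 / 2 + (I * t + δ * w)) - 1‖ ≤
          Real.exp (-(a0 * (δ * Real.log T / 2) * w.re))) := by
  obtain ⟨C, B, hC, hgr⟩ := Pool.Agent.Y24.Z1_growth (1 / 2 + ρl)
  obtain ⟨cz, hcz, hlow⟩ := Pool.Agent.Y24.zeta_lower
  have h8 : 0 < 8 / κ1 := by positivity
  have hρ0 : 0 < ρl := by linarith
  obtain ⟨C', hC'⟩ : ∃ C' : ℝ, C' = C * 5 ^ B * (3 / (2 * cz)) := ⟨_, rfl⟩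
  have hC'0 : 0 < C' := by rw [hC']; positivity
  refine ⟨2 * (B + 25) / κ1, max (max C' (Real.exp (2 / a0))) (10 * ρl + 4), ?_, ?_, ?_⟩
  · rw [le_div_iff₀ hκ1]
    have : (0 : ℝ) ≤ B := Nat.cast_nonneg _
    linarith
  · exact le_trans (by linarith) (le_max_right _ _)
  intro T δ t hT hδ1 hδ2 ht1 ht2 hgood
  have hTC : C' ≤ T := ((le_max_left _ _).trans (le_max_left _ _)).trans hT
  have hTe : Real.exp (2 / a0) ≤ T := ((le_max_right _ _).trans (le_max_left _ _)).trans hT
  have hTρ : 10 * ρl + 4 ≤ T := (le_max_right _ _).trans hT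
  have hT2 : 2 ≤ T := by linarith
  have hTp : 0 < T := by linarith
  have hδ : 0 < δ := by linarith
  have hδC : (δ : ℂ) ≠ 0 := by exact_mod_cast hδ.ne'
  obtain ⟨L, hL⟩ : ∃ L : ℝ, L = Real.log T := ⟨_, rfl⟩
  have hL0 : 0 < L := by rw [hL]; exact Real.log_pos (by linarith)
  have hLa : 2 / a0 ≤ L := by
    rw [hL, Real.le_log_iff_exp_le hTp]; exact hTe
  have hLa' : 2 ≤ a0 * L := by
    rw [div_le_iff₀ ha0] at hLa; linarith
  have hTL : T = Real.exp L := by rw [hL, Real.exp_log hTp]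
  have hX : T ^ a0 = Real.exp (a0 * L) := by
    rw [Real.rpow_def_of_pos hTp, hL, mul_comm]
  have hX2 : 2 ≤ T ^ a0 := by
    rw [hX]
    have := Real.add_one_le_exp (a0 * L)
    linarith
  rw [← hL] at hgood ⊢
  have hre : ∀ w : ℂ, (1 / 2 + (I * t + δ * w) : ℂ).re = 1 / 2 + δ * w.re := fun w => hp_re t δ w
  have him : ∀ w : ℂ, (1 / 2 + (I * t + δ * w) : ℂ).im = t + δ * w.im := fun w => by simp
  have himb : ∀ w : ℂ, |w.im| ≤ 5 * ρl → |δ * w.im| ≤ 5 * ρl / 2 := by
    intro w hw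
    rw [abs_mul, abs_of_pos hδ]
    calc δ * |w.im| ≤ 1 / 2 * (5 * ρl) := mul_le_mul hδ2 hw (abs_nonneg _) (by norm_num)
      _ = _ := by ring
  constructor
  · intro w h1 h2 h3
    have hw0 : 0 < w.re := by linarith
    have h4 := abs_le.mp (himb w h3)
    constructor
    · -- analytic
      have hU : IsOpen {w : ℂ | 0 < w.re ∧ 0 < t + δ * w.im} :=
        (isOpen_lt continuous_const continuous_re).inter
          (isOpen_lt continuous_const (continuous_const.add (continuous_const.mul continuous_im)))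
      have hd : DifferentiableOn ℂ (fun w => riemannZeta (1 / 2 + (I * t + δ * w)) /
          PP (T ^ a0) (1 / 2 + (I * t + δ * w))) {w : ℂ | 0 < w.re ∧ 0 < t + δ * w.im} := by
        intro u hu
        have hu1 : 0 < (1 / 2 + (I * t + δ * u) : ℂ).re := by
          rw [hre]; have := mul_pos hδ hu.1; linarith
        have hu2 : (1 / 2 + (I * t + δ * u) : ℂ) ≠ 1 := by
          intro h
          have := congrArg Complex.im h
          rw [him, Complex.one_im] at this
          have h5 := hu.2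
          linarith
        have ha := aff_deriv' t δ u
        refine DifferentiableAt.differentiableWithinAt ?_
        have hc1 : DifferentiableAt ℂ (riemannZeta ∘ (fun w : ℂ => 1 / 2 + (I * t + δ * w))) u :=
          DifferentiableAt.comp (g := riemannZeta) u (differentiableAt_riemannZeta hu2) ha.differentiableAt
        have hc2 : DifferentiableAt ℂ (PP (T ^ a0) ∘ (fun w : ℂ => 1 / 2 + (I * t + δ * w))) u :=
          DifferentiableAt.comp (g := PP (T ^ a0)) u (PP_diff (T ^ a0) hu1) ha.differentiableAt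
        exact hc1.div hc2 (PP_ne _ hu1)
      exact hd.analyticAt (hU.mem_nhds ⟨hw0, by linarith⟩)
    · -- the bound
      set s : ℂ := 1 / 2 + (I * t + δ * w) with hs
      have hsre : s.re = 1 / 2 + δ * w.re := hre w
      have hsim : s.im = t + δ * w.im := him w
      have hb1 : (1 - κ) * δ ≤ δ * w.re := by
        rw [mul_comm]; exact mul_le_mul_of_nonneg_left (by linarith) hδ.le
      have hδw : δ * w.re ≤ ρl := by
        calc δ * w.re ≤ 1 / 2 * (2 * ρl) := mul_le_mul hδ2 h2 hw0.le (by norm_num)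
          _ = ρl := by ring
      have hδw0 : 0 < δ * w.re := mul_pos hδ hw0
      -- zeta
      have hz1 : ‖riemannZeta s‖ ≤ C * 5 ^ B * Real.exp (B * L) := by
        have hne : s ≠ 1 := by
          intro h
          have := congrArg Complex.im h
          rw [hsim, Complex.one_im] at this
          linarith
        have g1 := hgr s (by rw [hsre]; linarith) (by rw [hsre]; linarith)
        rw [Pool.Agent.Y24.Z1_ne hne, norm_mul] at g1
        have g2 : 1 ≤ ‖s - 1‖ := by
          have : |(s - 1).im| ≤ ‖s - 1‖ := Complex.abs_im_le_norm _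
          rw [Complex.sub_im, hsim, Complex.one_im, sub_zero] at this
          have g3 : 1 ≤ |t + δ * w.im| := by
            rw [abs_of_pos (by linarith)]; linarith
          linarith
        have g4 : 1 + |s.im| ≤ 5 * T := by
          rw [hsim, abs_of_pos (by linarith)]
          linarith
        calc ‖riemannZeta s‖ = 1 * ‖riemannZeta s‖ := (one_mul _).symm
          _ ≤ ‖s - 1‖ * ‖riemannZeta s‖ := mul_le_mul_of_nonneg_right g2 (norm_nonneg _)
          _ ≤ C * (1 + |s.im|) ^ B := g1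
          _ ≤ C * (5 * T) ^ B := by
              refine mul_le_mul_of_nonneg_left (pow_le_pow_left₀ (by positivity) g4 _) hC.le
          _ = C * 5 ^ B * Real.exp (B * L) := by
              rw [mul_pow, Real.exp_nat_mul, ← hTL]; ring
      -- the Euler product
      have hP1 : ‖PP (T ^ a0) (s + 8)‖ ≤ Real.exp (24 * L) * ‖PP (T ^ a0) s‖ := by
        have hseg := grow_seg (PP (T ^ a0)) L 2 s (s + 8) (by norm_num) hL0.le (fun x hx => by
          have e1 : s + (x : ℂ) * (s + 8 - s) = 1 / 2 + (I * t + δ * w + 8 * x) := by rw [hs]; ring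
          have e2 : (I * t + δ * w + 8 * x : ℂ).re = δ * w.re + 8 * x := by simp
          have e3 : (I * t + δ * w + 8 * x : ℂ).im = t + δ * w.im := by simp
          rw [e1]
          have e4 : 0 < (1 / 2 + (I * t + δ * w + 8 * x) : ℂ).re := by
            rw [Complex.add_re, e2]
            have : (1 / 2 : ℂ).re = 1 / 2 := by norm_num
            rw [this]
            linarith [hx.1]
          refine ⟨PP_diff _ e4, PP_ne _ e4, ?_⟩
          have g1 := hgood (I * t + δ * w + 8 * x) (by rw [e2]; linarith [hx.1])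
            (by rw [e3, add_sub_cancel_left]; exact (himb w h3).trans (by rw [hW]; linarith))
          calc ‖logDeriv (PP (T ^ a0)) (1 / 2 + (I * t + δ * w + 8 * x)) - (L : ℂ)‖
              ≤ ‖logDeriv (PP (T ^ a0)) (1 / 2 + (I * t + δ * w + 8 * x))‖ + ‖(L : ℂ)‖ := norm_sub_le _ _
            _ ≤ L + L := add_le_add g1 (by rw [Complex.norm_real, Real.norm_eq_abs, abs_of_pos hL0])
            _ = 2 * L := by ring)
        have e5 : (s + 8).re - s.re = 8 := by simp
        have e6 : ‖s + 8 - s‖ = 8 := by simp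
        rw [e5, e6] at hseg
        refine hseg.trans (le_of_eq ?_)
        congr 2
        ring
      have hP2 : 2 / 3 * cz ≤ ‖PP (T ^ a0) (s + 8)‖ := by
        have g1 := GG_far2 (T ^ a0) hX2 (z := I * t + δ * w + 8) (by simp; linarith)
        unfold Pool.Agent.Zk2.DH.GG at g1
        have e1 : 1 / 2 + (I * t + δ * w + 8) = s + 8 := by rw [hs]; ring
        rw [e1] at g1
        have g2 := hlow (s + 8) (by simp; linarith)
        have g3 : ‖riemannZeta (s + 8) / PP (T ^ a0) (s + 8)‖ ≤ 3 / 2 := by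
          calc ‖riemannZeta (s + 8) / PP (T ^ a0) (s + 8)‖
              = ‖(riemannZeta (s + 8) / PP (T ^ a0) (s + 8) - 1) + 1‖ := by rw [sub_add_cancel]
            _ ≤ 1 / 2 + 1 := (norm_add_le _ _).trans (add_le_add g1 (by simp))
            _ = 3 / 2 := by norm_num
        have hne : PP (T ^ a0) (s + 8) ≠ 0 := PP_ne _ (by simp; linarith)
        rw [norm_div, div_le_iff₀ (norm_pos_iff.mpr hne)] at g3
        linarith
      have hPs : 0 < ‖PP (T ^ a0) s‖ := norm_pos_iff.mpr (PP_ne _ (by rw [hsre]; linarith))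
      have hP3 : 2 / 3 * cz * Real.exp (-(24 * L)) ≤ ‖PP (T ^ a0) s‖ := by
        rw [Real.exp_neg, ← div_eq_mul_inv, div_le_iff₀ (Real.exp_pos _)]
        linarith
      rw [norm_div, div_le_iff₀ hPs]
      have hLn : (B + 25) * L ≤ 2 * (B + 25) / κ1 * (δ * L / 2) := by
        have e1 : 2 * ((B : ℝ) + 25) / κ1 * (δ * L / 2) = (B + 25) * L * (δ / κ1) := by
          field_simp
        rw [e1]
        have e2 : 1 ≤ δ / κ1 := by rw [le_div_iff₀ hκ1]; linarith
        have : 0 ≤ ((B : ℝ) + 25) * L := by positivity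
        exact le_mul_of_one_le_right this e2
      have hfin : C * 5 ^ B * Real.exp (B * L) ≤
          Real.exp ((B + 25) * L) * (2 / 3 * cz * Real.exp (-(24 * L))) := by
        have e1 : Real.exp (((B : ℝ) + 25) * L) * (2 / 3 * cz * Real.exp (-(24 * L))) =
            2 / 3 * cz * (Real.exp (B * L) * T) := by
          rw [hTL, ← Real.exp_add]
          rw [show Real.exp (((B : ℝ) + 25) * L) * (2 / 3 * cz * Real.exp (-(24 * L))) =
            2 / 3 * cz * (Real.exp (((B : ℝ) + 25) * L) * Real.exp (-(24 * L))) by ring, ← Real.exp_add]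
          congr 2
          ring
        rw [e1]
        have e2 : C * 5 ^ B = 2 / 3 * cz * C' := by
          rw [hC']; field_simp
        rw [e2]
        have e3 : 0 ≤ 2 / 3 * cz * Real.exp (B * L) := by positivity
        calc 2 / 3 * cz * C' * Real.exp (B * L) = 2 / 3 * cz * Real.exp (B * L) * C' := by ring
          _ ≤ 2 / 3 * cz * Real.exp (B * L) * T := mul_le_mul_of_nonneg_left hTC e3
          _ = _ := by ring
      calc ‖riemannZeta s‖ ≤ C * 5 ^ B * Real.exp (B * L) := hz1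
        _ ≤ Real.exp ((B + 25) * L) * (2 / 3 * cz * Real.exp (-(24 * L))) := hfin
        _ ≤ Real.exp (2 * (B + 25) / κ1 * (δ * L / 2)) * ‖PP (T ^ a0) s‖ :=
            mul_le_mul (Real.exp_le_exp.mpr hLn) hP3 (by positivity) (Real.exp_pos _).le
  · intro w h1 h2 h3
    have hz4 : 4 ≤ δ * w.re := by
      have e1 : 4 / κ1 ≤ w.re := by
        have : 8 / κ1 = 2 * (4 / κ1) := by ring
        linarith
      rw [div_le_iff₀ hκ1] at e1
      have e2 : 0 ≤ w.re := by linarith
      calc (4 : ℝ) ≤ w.re * κ1 := e1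
        _ ≤ w.re * δ := mul_le_mul_of_nonneg_left hδ1 e2
        _ = _ := mul_comm _ _
    have g1 := rough_one (T ^ a0) (by linarith) (1 / 2 + (I * t + δ * w)) (by rw [hre]; linarith)
    refine g1.trans ?_
    rw [hre, hX, ← Real.exp_mul]
    have e1 : (2 : ℝ) ≤ Real.exp 1 := by
      have := Real.add_one_le_exp (1 : ℝ)
      linarith
    calc 2 * Real.exp (a0 * L * -(1 / 2 + δ * w.re - 2))
        ≤ Real.exp 1 * Real.exp (a0 * L * -(1 / 2 + δ * w.re - 2)) :=
          mul_le_mul_of_nonneg_right e1 (Real.exp_pos _).le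
      _ = Real.exp (1 + a0 * L * -(1 / 2 + δ * w.re - 2)) := by rw [Real.exp_add]
      _ ≤ Real.exp (-(a0 * (δ * L / 2) * w.re)) := by
          refine Real.exp_le_exp.mpr ?_
          have e2 : 1 / 2 * 2 ≤ (δ * w.re / 2 - 3 / 2) * (a0 * L) :=
            mul_le_mul (by linarith) hLa' (by norm_num) (by linarith)
          have e3 : (δ * w.re / 2 - 3 / 2) * (a0 * L) =
              -(a0 * L * -(1 / 2 + δ * w.re - 2)) + -(a0 * (δ * L / 2) * w.re) := by ring
          linarith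

theorem mac (hMP : S_MP) : S_MAC := by
  intro ε κ1 hε hε1 hκ1 hκ11
  classical
  obtain ⟨κ, hκe⟩ : ∃ κ : ℝ, κ = ε / 8 := ⟨_, rfl⟩
  have hκ : 0 < κ := by linarith
  have hκ8 : κ ≤ 1 / 8 := by linarith
  obtain ⟨a0, ha0e⟩ : ∃ a0 : ℝ, a0 = ε / 64 := ⟨_, rfl⟩
  have ha0 : 0 < a0 := by linarith
  obtain ⟨ρl, hρl⟩ : ∃ ρl : ℝ, ρl = 8 / κ1 + 8 := ⟨_, rfl⟩
  have h8 : 0 < 8 / κ1 := by positivity
  obtain ⟨W, hW⟩ : ∃ W : ℝ, W = 5 * ρl + 1 := ⟨_, rfl⟩
  obtain ⟨C, T1, hC, hT1, hMPs⟩ := hMP a0 1 (ε / 8) ha0 (by linarith) (by linarith) (by linarith)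
  obtain ⟨M, T2, hM, hT2, hG⟩ := mac_G hκ1 hκ11 hκ hκ8 hρl ha0 hW
  obtain ⟨cl, nl, hcl, hnl, hloc⟩ := local_thm (κ := κ / 2) (ρ := ρl) (a := a0) (M := M)
    (by linarith) (by linarith) (by linarith) ha0 (by linarith) hM
  obtain ⟨T0, hT0e⟩ : ∃ T0 : ℝ, T0 = max (max T1 T2) (max (8 * W) (Real.exp (2 * nl / κ1 + 2 / κ1))) := ⟨_, rfl⟩
  refine ⟨5 * ρl + 1, cl / 8, C * (W * (8 / (7 * κ1))) * 100 * (cl / 8), T0, by linarith, by positivity,
    ?_, ?_, ?_⟩
  · have : 0 < W := by linarith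
    positivity
  · rw [hT0e]
    exact hT1.trans ((le_max_left _ _).trans (le_max_left _ _))
  intro T δ hT hδ1 hδ2 S hS
  have hTT1 : T1 ≤ T := le_trans ((le_max_left _ _).trans (le_max_left _ _)) (hT0e ▸ hT)
  have hTT2 : T2 ≤ T := le_trans ((le_max_right _ _).trans (le_max_left _ _)) (hT0e ▸ hT)
  have hTW : 8 * W ≤ T := le_trans ((le_max_left _ _).trans (le_max_right _ _)) (hT0e ▸ hT)
  have hTe : Real.exp (2 * nl / κ1 + 2 / κ1) ≤ T := le_trans ((le_max_right _ _).trans (le_max_right _ _)) (hT0e ▸ hT)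
  have hTp : 0 < T := by linarith
  have hT2 : 2 ≤ T := by linarith
  have hδ : 0 < δ := by linarith
  have hδC : (δ : ℂ) ≠ 0 := by exact_mod_cast hδ.ne'
  have hWp : 0 < W := by linarith
  obtain ⟨L, hL⟩ : ∃ L : ℝ, L = Real.log T := ⟨_, rfl⟩
  have hL0 : 0 < L := by rw [hL]; exact Real.log_pos (by linarith)
  have hLb : 2 * nl / κ1 + 2 / κ1 ≤ L := by rw [hL, Real.le_log_iff_exp_le hTp]; exact hTe
  have hLb' : 2 * nl + 2 ≤ L * κ1 := by
    rw [← add_div, div_le_iff₀ hκ1] at hLb; exact hLb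
  have hδL : 2 * nl + 2 ≤ δ * L := by
    have := mul_le_mul_of_nonneg_left hδ1 hL0.le
    linarith
  obtain ⟨x, hx⟩ : ∃ x : ℝ, x = (1 - κ) * δ := ⟨_, rfl⟩
  have hx7 : 7 / 8 * κ1 ≤ x := by rw [hx]; exact mul_le_mul (by linarith) hδ1 hκ1.le (by linarith)
  have hxp : 0 < x := by linarith
  have hx1 : x ≤ 1 / 2 := by
    rw [hx]
    have := mul_nonneg hκ.le hδ.le
    linarith
  have hmeas := hMPs T x W hTT1 (by
    rw [← hL, div_le_iff₀ hL0]
    have h1 : 7 / 8 * κ1 * L ≤ x * L := mul_le_mul_of_nonneg_right hx7 hL0.le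
    have h2 : 7 / 8 * κ1 * L = 7 / 8 * (L * κ1) := by ring
    linarith) (by linarith) (by linarith)
  rw [← hL] at hmeas hS ⊢
  have hcount := count (S := S) (m := fun s => (analyticOrderNatAt riemannZeta s : ℝ)) (h := δ / 100)
    (X := cl / 8 * δ * L) (by positivity) (fun _ _ => Nat.cast_nonneg _) hmeas (by positivity) (by positivity) ?_ ?_
  · refine hcount.trans ?_
    have e1 : C * T * (W / x) * Real.exp (-(2 * (1 - ε / 8) * x * L)) / (δ / 100) * (cl / 8 * δ * L) =
        C * (W / x) * 100 * (cl / 8) * T * Real.exp (-(2 * (1 - ε / 8) * x * L)) * L := by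
      field_simp
    rw [e1]
    have e2 : W / x ≤ W * (8 / (7 * κ1)) := by
      rw [div_le_iff₀ hxp]
      have : W * (8 / (7 * κ1)) * x = W * ((8 / (7 * κ1)) * x) := by ring
      rw [this]
      have h1 : 1 ≤ 8 / (7 * κ1) * x := by
        rw [div_mul_eq_mul_div, le_div_iff₀ (by positivity)]
        linarith
      exact le_mul_of_one_le_right hWp.le h1
    have e3 : Real.exp (-(2 * (1 - ε / 8) * x * L)) ≤ Real.exp (-((2 - ε) * δ * L)) := by
      refine Real.exp_le_exp.mpr ?_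
      have h6 : (2 - ε) * δ ≤ 2 * (1 - ε / 8) * x := by
        have h7 : 2 * (1 - ε / 8) * x - (2 - ε) * δ = 1 / 2 * (ε * δ) + 1 / 32 * (ε * ε * δ) := by
          rw [hx, hκe]; ring
        have h8 : 0 ≤ 1 / 2 * (ε * δ) + 1 / 32 * (ε * ε * δ) := by positivity
        linarith
      have := mul_le_mul_of_nonneg_right h6 hL0.le
      linarith
    gcongr
  · intro s hs t ht
    obtain ⟨h1, h2, h3, h4, h5⟩ := hS s hs
    have ht1 : T / 2 ≤ t := by linarith [ht.1]
    have ht2 : t ≤ 3 * T := by linarith [ht.2]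
    refine ⟨ht1, ht2, ?_⟩
    by_contra hcon
    push Not at hcon
    have hst : |s.im - t| ≤ δ / 100 := by
      rw [abs_le]
      constructor <;> linarith [ht.1, ht.2]
    obtain ⟨HA, HB⟩ := hG T δ t hTT2 hδ1 hδ2 ht1 ht2 (fun z hz1 hz2 => by
      have := hcon z (by rw [hx]; exact hz1) hz2
      rw [← hL]
      linarith)
    rw [← hL] at HA HB
    set G : ℂ → ℂ := fun w => riemannZeta (1 / 2 + (I * t + δ * w)) / PP (T ^ a0) (1 / 2 + (I * t + δ * w)) with hGd
    set w0 : ℂ := (s - 1 / 2 - I * t) / δ with hw0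
    have hsw : 1 / 2 + (I * t + δ * w0) = s := by
      rw [hw0, mul_div_cancel₀ _ hδC]; ring
    have hw0re : w0.re = (s.re - 1 / 2) / δ := by
      rw [hw0, Complex.div_ofReal_re]
      simp
    have hw0im : w0.im = (s.im - t) / δ := by
      rw [hw0, Complex.div_ofReal_im]
      simp
    have hsre1 : s.re < 1 := Pool.Agent.Y24.re_lt_one h1
    have hw0re1 : 1 ≤ w0.re := by
      rw [hw0re, le_div_iff₀ hδ]; linarith
    have hw0re2 : w0.re ≤ 2 * ρl := by
      rw [hw0re, div_le_iff₀ hδ]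
      have : 8 ≤ ρl * κ1 := by
        rw [hρl, add_mul, div_mul_cancel₀ _ hκ1.ne']
        linarith
      have h9 : ρl * κ1 ≤ ρl * δ := mul_le_mul_of_nonneg_left hδ1 (by linarith)
      linarith
    have hw0im1 : |w0.im| ≤ 1 := by
      rw [hw0im, abs_div, abs_of_pos hδ, div_le_iff₀ hδ]; linarith
    have H3 : G w0 = 0 := by
      show riemannZeta (1 / 2 + (I * t + δ * w0)) / PP (T ^ a0) (1 / 2 + (I * t + δ * w0)) = 0
      rw [hsw, h1, zero_div]
    obtain ⟨Z, hZ1, hZ2⟩ := hloc (δ * L / 2) G w0 (by linarith) HA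
      (fun w g1 g2 g3 => HB w g1 g2 g3) H3 hw0re1 hw0re2 hw0im1
    set Z' : Finset ℂ := Z.image (fun w => 1 / 2 + (I * t + δ * w)) with hZ'
    have hinj : Function.Injective (fun w : ℂ => 1 / 2 + (I * t + δ * w)) := by
      intro a b hab
      have g1 : 1 / 2 + (I * t + δ * a) = 1 / 2 + (I * t + δ * b) := hab
      have g2 : (δ : ℂ) * a = δ * b := by linear_combination g1
      exact mul_left_cancel₀ hδC g2
    have hcard : Z'.card = Z.card := Finset.card_image_of_injective _ hinj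
    have hmem : ∀ z ∈ Z', riemannZeta z = 0 ∧ 1 / 2 + (1 - ε) * δ ≤ z.re ∧
        |z.im - s.im| ≤ (5 * ρl + 1) * δ := by
      intro z hz
      obtain ⟨w, hw, rfl⟩ := Finset.mem_image.mp hz
      obtain ⟨g1, g2, g3, g4⟩ := hZ2 w hw
      have e1 : (1 / 2 + (I * t + δ * w) : ℂ).re = 1 / 2 + δ * w.re := hp_re t δ w
      have e4 : (1 / 2 + (I * t + δ * w) : ℂ).im = t + δ * w.im := by simp
      refine ⟨?_, ?_, ?_⟩
      · rcases div_eq_zero_iff.mp g1 with h | h
        · exact h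
        · exact absurd h (PP_ne _ (by rw [e1]; have := mul_pos hδ (show 0 < w.re by linarith); linarith))
      · rw [e1]
        have g5 : δ * (1 - κ / 2) ≤ δ * w.re := mul_le_mul_of_nonneg_left (by linarith) hδ.le
        have g6 := mul_pos hε hδ
        rw [hκe] at g5
        linarith
      · rw [e4]
        have g5 : |δ * w.im| ≤ δ * (5 * ρl) := by
          rw [abs_mul, abs_of_pos hδ]
          exact mul_le_mul_of_nonneg_left g4 hδ.le
        have g6 := abs_le.mp g5
        have g7 := abs_le.mp hst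
        rw [abs_le]
        constructor <;> linarith [g6.1, g6.2, g7.1, g7.2]
    have hne : ∀ z ∈ Z', riemannZeta z = 0 ∧ z ≠ 1 := by
      intro z hz
      refine ⟨(hmem z hz).1, ?_⟩
      rintro rfl
      exact riemannZeta_one_ne_zero (hmem 1 hz).1
    have hch : cl * (δ * L / 2) ≤ cl / 8 * δ * L := by
      calc cl * (δ * L / 2) ≤ (Z.card : ℝ) := hZ1
        _ = (Z'.card : ℝ) := by rw [hcard]
        _ ≤ ∑ z ∈ Z', (analyticOrderNatAt riemannZeta z : ℝ) := card_le_mult hne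
        _ ≤ _ := h5 Z' hmem
    have := mul_pos hcl (mul_pos hδ hL0)
    linarith
  · intro s hs
    obtain ⟨h1, h2, h3, h4, h5⟩ := hS s hs
    refine h5 _ fun z hz => ?_
    rw [Finset.mem_filter] at hz
    obtain ⟨g1, g2, g3, g4, -⟩ := hS z hz.1
    have g5 := mul_pos hε hδ
    refine ⟨g1, by linarith, hz.2.trans ?_⟩
    have g6 : 1 * δ ≤ (5 * ρl + 1) * δ := mul_le_mul_of_nonneg_right (by linarith) hδ.le
    linarith

end Pool.Agent.Zk3.CL
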