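import Pool.Agent.Zk3.CL.Final
import Pool.Agent.Zk3.CL.Macro
import Pool.Agent.Zk3.DH.MD
import Pool.Agent.Zk2.DH.MP
import Pool.Agent.Zk2.DH.ZP
import Pool.Agent.Zk41.DH.PP2
import Pool.Agent.Zk41.DH.Top

set_option autoImplicit false

namespace Pool.Agent.Zk3.CL

/-- The density hypothesis outside dense clusters, unconditional. -/
theorem main {ε : ℝ} (hε : 0 < ε) (hε1 : ε ≤ 1) :
    ∃ A c : ℝ, 1 ≤ A ∧ 0 < c ∧ ∀ K : ℝ, ∃ C : ℝ, 0 < C ∧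
    ∀ T δ : ℝ, 2 ≤ T → 0 ≤ δ → δ ≤ 1 / 2 →
    ∀ S : Finset ℂ, (∀ s ∈ S, riemannZeta s = 0 ∧ 1 / 2 + δ ≤ s.re ∧ 0 < s.im ∧ s.im ≤ T ∧
      Few ε A δ s.im (K + c * δ * Real.log s.im)) →
    ∑ s ∈ S, (analyticOrderNatAt riemannZeta s : ℝ) ≤
      C * T ^ (1 - (2 - ε) * δ) * Real.log T :=
  final Pool.Agent.Zk2.DH.smp Pool.Agent.Zk41.DH.mp0 Pool.Agent.Zk3.DH.sMD Pool.Agent.Zk3.DH.sMD0
    Pool.Agent.Zk41.DH.zc Pool.Agent.Zk41.DH.ng Pool.Agent.Zk2.DH.sZP (mac Pool.Agent.Zk2.DH.smp) hε hε1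

end Pool.Agent.Zk3.CL
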