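import Pool.Agent.Zk69.DH.LM

set_option autoImplicit false

/-!
Good heights: the normalised local situation `LH` and the zero-free cone, outside a set of measure
`O(T e^(-κt n))`.  (The assembly of helper69, `Zk69.DH.sLM`, without the local theorem.)
-/

namespace Pool.Agent.Zk3.CL

open Complex Filter Topology MeasureTheory Set
open Pool.Agent.H24R2.JP (XX HH Om)
open Pool.Agent.H24R2.DZ (ra)
open Pool.Agent.Zk1.DH
open Pool.Agent.Zk69.DH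

theorem lh_ok (hMP : S_MP) (hMP0 : S_MP0) (hMD : S_MD) (hMD0 : S_MD0) (hZC : S_ZC) (hNG : S_NG)
    (hZP : S_ZP) {κt ε κ : ℝ} (hε : 0 < ε) (hε1 : ε ≤ 1 / 2) (hκ : 0 < κ) (hκ1 : κ ≤ 1 / 4)
    (hκt4 : κt < 4) (hκt' : κt ≤ 4 * (1 - ε) * (1 - κ)) :
    ∃ B ρ2 : ℝ, 1 ≤ B ∧ 4 ≤ ρ2 ∧ ρ2 ≤ B ∧ ∀ ρ : ℝ, B ≤ ρ → ∃ K0 : ℕ, ∃ e C1 C3 κ1 : ℝ, 16 ≤ K0 ∧
      40 / (K0 : ℝ) * (2 * ρ + 4) ≤ 1 ∧ 0 < e ∧ 0 < κ1 ∧ κ1 ≤ 1 ∧
      Sm κt κ1 (fun T n t => ¬ (LH κ ε (40 / K0) B C3 1 ρ ρ K0 n (FX t (ra T n))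
        (F0 (T ^ (1 / K0 : ℝ)) t (ra T n)) (Dk (T ^ (1 / K0 : ℝ)) T t (ra T n)) ∧
        ZC T (ρ2 * ra T n) (ρ + 4) (2 * e) C1 t)) := by
  -- the cone
  obtain ⟨C1', hC1', hZC⟩ := hZC
  obtain ⟨C1, hC1, hC1l⟩ : ∃ C1 : ℝ, 1 ≤ C1 ∧ C1' ≤ C1 := ⟨max 1 C1', le_max_left _ _, le_max_right _ _⟩
  obtain ⟨ρz, ez, κz, hρz, hez, hez1, hκz, -, hZC⟩ := hZC 4 (by norm_num)
  obtain ⟨ρ2, hρ2, hρ2z⟩ : ∃ ρ2 : ℝ, 4 ≤ ρ2 ∧ ρz ≤ ρ2 := ⟨max 4 ρz, le_max_left _ _, le_max_right _ _⟩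
  -- growth
  obtain ⟨KN, hKN, hNG⟩ := hNG 4 (max (1 + 2) ρ2) (by norm_num) (by
    have := le_max_right (1 + 2) ρ2; linarith)
  obtain ⟨K, hK, hKKN⟩ : ∃ K : ℝ, ρ2 ≤ K ∧ KN ≤ K := ⟨max ρ2 KN, le_max_left _ _, le_max_right _ _⟩
  obtain ⟨C5, κN, hC5, hκN, hNG⟩ := hNG K hKKN
  refine ⟨C5 + K + 2 * ρ2 + 10, ρ2, by linarith, hρ2, by linarith, fun ρ hρB => ?_⟩
  have hρK : K ≤ ρ := by linarith
  obtain ⟨Y, hYρ⟩ : ∃ Y : ℝ, Y = ρ := ⟨ρ, rfl⟩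
  have hY : 1 ≤ Y := by linarith
  obtain ⟨R, hRe⟩ : ∃ R : ℝ, R = 1 := ⟨1, rfl⟩
  have hR : 1 ≤ R := hRe.ge
  rw [← hRe] at hNG
  have hρp : 0 < ρ := by linarith
  have hRp : 0 < R := by linarith
  have hYp : 0 < Y := by linarith
  have hρ2p : 0 < ρ2 := by linarith
  have hρzp : 0 < ρz := by linarith
  obtain ⟨δ, hδ, hδ8, hδQ⟩ : ∃ δ : ℝ, 0 < δ ∧ δ ≤ 1 / 8 ∧ 4 * δ * (ρ + R + 1) ≤ 1 := by
    refine ⟨1 / (16 * (ρ + R + 2)), by positivity, ?_, ?_⟩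
    · exact one_div_le_one_div_of_le (by norm_num) (by linarith)
    · rw [mul_one_div, div_mul_eq_mul_div, div_le_one (by positivity)]
      nlinarith
  obtain ⟨e, he, he1, he2⟩ : ∃ e : ℝ, 0 < e ∧ 2 * e ≤ ez ∧ 2 * e ≤ δ :=
    ⟨min (ez / 2) (δ / 2), lt_min (by linarith) (by linarith), by
      have := min_le_left (ez / 2) (δ / 2); linarith, by
      have := min_le_right (ez / 2) (δ / 2); linarith⟩
  obtain ⟨K0, hK16, hKε, hKη⟩ : ∃ K0 : ℕ, 16 ≤ K0 ∧ 8 / (K0 : ℝ) ≤ ε ∧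
      40 / (K0 : ℝ) * (ρ + R + Y + 3) ≤ 1 := by
    refine ⟨⌈8 / ε⌉₊ + ⌈40 * (ρ + R + Y + 3)⌉₊ + 16, by omega, ?_, ?_⟩
    all_goals push_cast
    all_goals
      have g2 := Nat.le_ceil (8 / ε)
      have g3 := Nat.le_ceil (40 * (ρ + R + Y + 3))
      have g5 : 0 < 8 / ε := by positivity
      have g6 : 0 < 40 * (ρ + R + Y + 3) := by positivity
    · rw [div_le_comm₀ (by positivity) hε]
      linarith
    · rw [div_mul_eq_mul_div, div_le_one (by positivity)]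
      linarith
  have hK0R : (16 : ℝ) ≤ K0 := by exact_mod_cast hK16
  have hη : 0 < 40 / (K0 : ℝ) := by positivity
  obtain ⟨C2, N1, TZ, q, hC2, hN1, hTZ, hzp⟩ := zp_ok (C1 := C1) hZP (by linarith) he (by linarith) hδ hδ8
    (by omega : 3 ≤ K0)
  obtain ⟨TH, hTH, hHH⟩ := HH_ok hη (M := ρ + R + Y + 3) (by linarith)
  -- exceptional sets
  have E1 := near hMP hMD (ρ := ρ) (R := R) (Y := Y) (K0 := K0) hκt' hε1 hκ hκ1 (by linarith) hR hY (by omega) hKε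
  have E3 := cone hMP hMP0 hMD hMD0 (C1 := C1) (e := 2 * e) (δ := δ) (A := Y + 4) (ρ2 := ρ2) (K0 := K0) hC1
    (by linarith) (by linarith) he2 (by linarith) hρ2 hK16
  have E2 : Sm 4 κz (fun T n t => ¬ ZC T (ρz * ra T n) ((Y + 4) * (ρ2 / ρz)) ez C1' t) := by
    obtain ⟨C, T0, n0, hC, hT0, h⟩ := hZC ((Y + 4) * (ρ2 / ρz)) (by
      have : 1 ≤ ρ2 / ρz := by rw [le_div_iff₀ (by linarith)]; linarith
      nlinarith)
    exact ⟨C, T0, n0, hC, hT0, h⟩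
  have E4 : Sm 4 κN (fun T n t => ∃ w : ℂ, |w.re| ≤ max (R + 2) ρ2 ∧ |w.im| ≤ Y + 1 ∧
    ‖XX (I * ((t + ra T n * w.im : ℝ) : ℂ) + (ra T n * K : ℝ))‖ * Real.exp (C5 * n) <
      ‖XX (I * t + ra T n * w)‖) := by
    obtain ⟨C, T0, n0, hC, hT0, h⟩ := hNG (Y + 1) (by linarith)
    exact ⟨C, T0, n0, hC, hT0, h⟩
  obtain ⟨κ1, hκ1p, k1, k2, k3, k4, k5, k6⟩ : ∃ κ1 : ℝ, 0 < κ1 ∧ κ1 ≤ 1 ∧ κ1 ≤ 1 / (2 * (Y + 4) * ρ2) ∧
      κ1 ≤ κz ∧ κ1 ≤ κN ∧ κ1 ≤ 1 / (8 * ρ2) ∧ κ1 ≤ 1 / (2 * (ρ + R + 1)) := by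
    refine ⟨min 1 (min (1 / (2 * (Y + 4) * ρ2)) (min κz (min κN (min (1 / (8 * ρ2)) (1 / (2 * (ρ + R + 1))))))), ?_,
      min_le_left _ _, (min_le_right _ _).trans (min_le_left _ _),
      (min_le_right _ _).trans ((min_le_right _ _).trans (min_le_left _ _)),
      (min_le_right _ _).trans ((min_le_right _ _).trans ((min_le_right _ _).trans (min_le_left _ _))),
      (min_le_right _ _).trans ((min_le_right _ _).trans ((min_le_right _ _).trans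
        ((min_le_right _ _).trans (min_le_left _ _)))),
      (min_le_right _ _).trans ((min_le_right _ _).trans ((min_le_right _ _).trans
        ((min_le_right _ _).trans (min_le_right _ _))))⟩
    refine lt_min one_pos (lt_min (by positivity) (lt_min hκz (lt_min hκN (lt_min (by positivity) (by positivity)))))
  have F1 := E1.mono (κ' := κt) (κ1' := κ1) le_rfl k1 0 0 (fun _ _ _ _ _ _ _ _ _ h => h)
  have F2 := E2.mono (κ' := κt) (κ1' := κ1) hκt4.le k3 0 0 (fun _ _ _ _ _ _ _ _ _ h => h)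
  have F3 := E3.mono (κ' := κt) (κ1' := κ1) hκt4.le k2 0 0 (fun _ _ _ _ _ _ _ _ _ h => h)
  have F4 := E4.mono (κ' := κt) (κ1' := κ1) hκt4.le k4 0 0 (fun _ _ _ _ _ _ _ _ _ h => h)
  refine ⟨K0, e, C1, C5 + K + 1, κ1, hK16, ?_, he, hκ1p, k1, ?_⟩
  · refine le_trans (le_of_eq ?_) hKη
    rw [hRe, hYρ]; ring
  have hfin : Sm κt κ1 (fun T n t => ¬ (LH κ ε (40 / K0) (C5 + K + 2 * ρ2 + 10) (C5 + K + 1) R ρ Y K0 n
      (FX t (ra T n)) (F0 (T ^ (1 / K0 : ℝ)) t (ra T n)) (Dk (T ^ (1 / K0 : ℝ)) T t (ra T n)) ∧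
        ZC T (ρ2 * ra T n) (Y + 4) (2 * e) C1 t)) := by
    refine (((F1.or F2).or F3).or F4).mono le_rfl le_rfl (TZ + TH + 4 * (Y + 2))
      (⌈N1⌉₊ + ⌈C2⌉₊ + K0 + ⌈(ρ + R + 1) ^ q⌉₊ + 1) ?_
    rintro T n t hT2 hT hn hnκ ht1 ht2 hbad
    by_contra hcon
    push Not at hcon
    obtain ⟨⟨⟨g1, g2⟩, g3⟩, g4⟩ := hcon
    have hTpos : 0 < T := by linarith
    have hL : 0 < Real.log T := Real.log_pos (by linarith)
    have hnn : ((⌈N1⌉₊ + ⌈C2⌉₊ + K0 + ⌈(ρ + R + 1) ^ q⌉₊ + 1 : ℕ) : ℝ) ≤ n := by exact_mod_cast hn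
    push_cast at hnn
    have c1 := Nat.le_ceil N1
    have c2 := Nat.le_ceil C2
    have c3 := Nat.le_ceil ((ρ + R + 1) ^ q)
    have p3 : 0 < (ρ + R + 1) ^ q := by positivity
    have hn1 : 1 ≤ n := by omega
    have hr := ra_pos hT2 hn1
    have hrL := ra_L n hT2
    have hr2 := ra_le hT2 hnκ
    have hexpn := Real.add_one_le_exp (n : ℝ)
    have hρ2pos : 0 < ρ2 := by linarith
    have hx4 : ρ2 * ra T n ≤ 1 / 4 := by
      calc ρ2 * ra T n ≤ ρ2 * (2 * (1 / (8 * ρ2))) := by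
            refine mul_le_mul_of_nonneg_left (hr2.trans ?_) hρ2pos.le
            linarith
        _ = 1 / 4 := by field_simp; norm_num
    have hYx : (Y + 1) * (ρ2 * ra T n) ≤ 1 := by
      calc (Y + 1) * (ρ2 * ra T n) ≤ (Y + 4) * (ρ2 * (2 * (1 / (2 * (Y + 4) * ρ2)))) := by
            refine mul_le_mul (by linarith) ?_ (by positivity) (by linarith)
            refine mul_le_mul_of_nonneg_left (hr2.trans ?_) hρ2pos.le
            linarith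
        _ = 1 := by field_simp
    have hrQ : ra T n * (ρ + R + 1) ≤ 1 := by
      calc ra T n * (ρ + R + 1) ≤ (2 * (1 / (2 * (ρ + R + 1)))) * (ρ + R + 1) := by
            refine mul_le_mul_of_nonneg_right (hr2.trans ?_) (by linarith)
            linarith
        _ = 1 := by field_simp
    have hZC1 : ZC T (ρ2 * ra T n) (Y + 4) (2 * e) C1 t := by
      have h1 := ZC_shift (x1 := ρ2 * ra T n) (A := Y + 4) hL.le hez.le
        (mul_le_mul_of_nonneg_right hρ2z hr.le) (by positivity) (le_of_eq (by field_simp)) g2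
      exact ZC_mono hL.le (by positivity) he1 hC1l h1
    have hzpok := hzp ρ R Y ρ2 T t n hY hρ2 (by linarith) ht1 ht2 (by linarith) hx4 hYx hrQ hZC1 g3
    refine hbad ⟨?_, hZC1⟩
    refine (det (q := q) (ρ2 := ρ2) (K := K) (C5 := C5) (C2 := C2) (δ := δ) (L := Real.log T)
        (X := T ^ (1 / K0 : ℝ)) (T := T) (t := t) (r := ra T n) rfl (by linarith) (by omega) hn1 hε.le (by linarith)
        hκ hκ1 hR hY (by linarith) hK hρK hC5.le hr hrL hη hKη ?_ hδ hδQ ?_ g1.1 g1.2 hzpok ?_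
        (by linarith) (by linarith) (by linarith) le_rfl le_rfl)
    · intro y hy
      have : |ra T n * y| ≤ 2 * (Y + 1) := by
        rw [abs_mul, abs_of_pos hr]
        exact mul_le_mul (hr2.trans (by linarith)) hy (abs_nonneg _) (by norm_num)
      have := (abs_le.mp this).1
      linarith
    · intro w hw1 hw2 hw3
      refine hHH T t n (by linarith) hn1 (hnκ.trans (by nlinarith)) ht1 ht2 w ?_
      refine (Complex.norm_le_abs_re_add_abs_im _).trans ?_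
      rw [abs_of_nonneg (by linarith : 0 ≤ w.re)]
      linarith
    · intro w hw1 hw2
      exact g4 w hw1 hw2
  rw [hRe, hYρ] at hfin
  exact hfin

end Pool.Agent.Zk3.CL
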