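import Mathlib

set_option autoImplicit false

/-! Counting zeros from the measure of the bad heights. -/

namespace Pool.Agent.Zk3.CL

open Complex Filter Topology MeasureTheory Set

/-- The total multiplicity of any finite set of zeros in the box `Re ≥ 1/2 + (1-ε) δ`, `|Im - y| ≤ A δ`
is at most `X`. -/
def Few (ε A δ y X : ℝ) : Prop := ∀ Z : Finset ℂ,
  (∀ z ∈ Z, riemannZeta z = 0 ∧ 1 / 2 + (1 - ε) * δ ≤ z.re ∧ |z.im - y| ≤ A * δ) →
  ∑ z ∈ Z, (analyticOrderNatAt riemannZeta z : ℝ) ≤ X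

lemma count {S : Finset ℂ} {m : ℂ → ℝ} {h X V : ℝ} {E : Set ℝ} (hh : 0 < h) (_hm : ∀ s ∈ S, 0 ≤ m s)
    (hE : volume E ≤ ENNReal.ofReal V) (hV : 0 ≤ V) (hX : 0 ≤ X)
    (h1 : ∀ s ∈ S, Icc (s.im - h) (s.im + h) ⊆ E)
    (h2 : ∀ s ∈ S, ∑ s' ∈ S.filter (fun s' => |s'.im - s.im| ≤ h), m s' ≤ X) :
    ∑ s ∈ S, m s ≤ V / h * X := by
  classical
  set j : ℂ → ℤ := fun s => ⌊s.im / h⌋ with hj
  set J : Finset ℤ := S.image j with hJ
  have hcell : ∀ s : ℂ, (j s : ℝ) * h ≤ s.im ∧ s.im < ((j s : ℝ) + 1) * h := by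
    intro s
    have a1 := Int.floor_le (s.im / h)
    have a2 := Int.lt_floor_add_one (s.im / h)
    rw [le_div_iff₀ hh] at a1
    rw [div_lt_iff₀ hh] at a2
    exact ⟨a1, a2⟩
  have hfib : ∑ s ∈ S, m s = ∑ i ∈ J, ∑ s ∈ S.filter (fun s => j s = i), m s := by
    rw [Finset.sum_fiberwise_of_maps_to (fun s hs => Finset.mem_image_of_mem j hs)]
  have hX' : ∀ i ∈ J, ∑ s ∈ S.filter (fun s => j s = i), m s ≤ X := by
    intro i hi
    obtain ⟨s0, hs0, rfl⟩ := Finset.mem_image.mp hi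
    refine le_trans ?_ (h2 s0 hs0)
    refine Finset.sum_le_sum_of_subset_of_nonneg ?_ ?_
    · intro s hs
      rw [Finset.mem_filter] at hs ⊢
      refine ⟨hs.1, ?_⟩
      have b1 := hcell s
      have b2 := hcell s0
      rw [hs.2] at b1
      rw [abs_le]
      constructor <;> nlinarith
    · intro s hs _
      exact _hm s (Finset.mem_filter.mp hs).1
  have hcard : (J.card : ℝ) * h ≤ V := by
    have hdisj : Set.PairwiseDisjoint (↑J : Set ℤ) (fun i : ℤ => Ico ((i : ℝ) * h) (((i : ℝ) + 1) * h)) := by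
      intro a _ b _ hab
      rw [Function.onFun, Set.disjoint_left]
      intro x hx1 hx2
      apply hab
      have c1 : (a : ℝ) < b + 1 := by
        have : (a : ℝ) * h < (b + 1) * h := lt_of_le_of_lt hx1.1 hx2.2
        exact lt_of_mul_lt_mul_right this hh.le
      have c2 : (b : ℝ) < a + 1 := by
        have : (b : ℝ) * h < (a + 1) * h := lt_of_le_of_lt hx2.1 hx1.2
        exact lt_of_mul_lt_mul_right this hh.le
      have c3 : a < b + 1 := by exact_mod_cast c1
      have c4 : b < a + 1 := by exact_mod_cast c2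
      omega
    have hmeas := measure_biUnion_finset (μ := volume) hdisj (fun i _ => measurableSet_Ico)
    have hsub : (⋃ i ∈ J, Ico ((i : ℝ) * h) (((i : ℝ) + 1) * h)) ⊆ E := by
      intro x hx
      rw [mem_iUnion₂] at hx
      obtain ⟨i, hi, hx⟩ := hx
      obtain ⟨s0, hs0, rfl⟩ := Finset.mem_image.mp hi
      refine h1 s0 hs0 ?_
      have b2 := hcell s0
      constructor
      · nlinarith [hx.1]
      · nlinarith [hx.2]
    have h3 := (measure_mono hsub).trans hE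
    rw [hmeas] at h3
    have h4 : ∀ i ∈ J, volume (Ico ((i : ℝ) * h) (((i : ℝ) + 1) * h)) = ENNReal.ofReal h := by
      intro i _
      rw [Real.volume_Ico]
      congr 1
      ring
    rw [Finset.sum_congr rfl h4, Finset.sum_const, nsmul_eq_mul, ← ENNReal.ofReal_natCast,
      ← ENNReal.ofReal_mul (Nat.cast_nonneg _), ENNReal.ofReal_le_ofReal_iff hV] at h3
    exact h3
  rw [hfib]
  calc ∑ i ∈ J, ∑ s ∈ S.filter (fun s => j s = i), m s ≤ ∑ _i ∈ J, X := Finset.sum_le_sum hX'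
    _ = J.card * X := by rw [Finset.sum_const, nsmul_eq_mul]
    _ ≤ V / h * X := by
        refine mul_le_mul_of_nonneg_right ?_ hX
        rw [le_div_iff₀ hh]
        exact hcard

lemma zeta_ana {z : ℂ} (hz : z ≠ 1) : AnalyticAt ℂ riemannZeta z := by
  have hU : IsOpen ({1}ᶜ : Set ℂ) := isOpen_compl_singleton
  have hd : DifferentiableOn ℂ riemannZeta ({1}ᶜ : Set ℂ) := fun w hw =>
    (differentiableAt_riemannZeta hw).differentiableWithinAt
  exact hd.analyticAt (hU.mem_nhds hz)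

lemma zeta_order_ne_top {s : ℂ} (hs : s ≠ 1) : analyticOrderAt riemannZeta s ≠ ⊤ := by
  have hU : IsPreconnected ({1}ᶜ : Set ℂ) :=
    (isConnected_compl_singleton_of_one_lt_rank (by rw [Complex.rank_real_complex]; norm_num) 1).isPreconnected
  refine AnalyticOnNhd.analyticOrderAt_ne_top_of_isPreconnected (x := 2) (fun z hz => zeta_ana hz) hU
    (Set.mem_compl_singleton_iff.2 (by norm_num)) (Set.mem_compl_singleton_iff.2 hs) ?_
  have h2 : riemannZeta 2 ≠ 0 := riemannZeta_ne_zero_of_one_le_re (by simp)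
  rw [analyticOrderAt_eq_zero.2 (Or.inr h2)]
  simp

lemma zeta_mult_pos {s : ℂ} (h0 : riemannZeta s = 0) (hs : s ≠ 1) :
    (1 : ℝ) ≤ (analyticOrderNatAt riemannZeta s : ℝ) := by
  have h2 := zeta_order_ne_top hs
  have h3 : analyticOrderAt riemannZeta s ≠ 0 := analyticOrderAt_ne_zero.2 ⟨zeta_ana hs, h0⟩
  rw [← Nat.cast_analyticOrderNatAt h2] at h3
  have h4 : analyticOrderNatAt riemannZeta s ≠ 0 := by exact_mod_cast h3
  have h5 : 1 ≤ analyticOrderNatAt riemannZeta s := by omega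
  exact_mod_cast h5

lemma card_le_mult {Z : Finset ℂ} (h0 : ∀ z ∈ Z, riemannZeta z = 0 ∧ z ≠ 1) :
    (Z.card : ℝ) ≤ ∑ z ∈ Z, (analyticOrderNatAt riemannZeta z : ℝ) := by
  calc (Z.card : ℝ) = ∑ _z ∈ Z, (1 : ℝ) := by simp
    _ ≤ _ := Finset.sum_le_sum fun z hz => zeta_mult_pos (h0 z hz).1 (h0 z hz).2

end Pool.Agent.Zk3.CL
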