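import Pool.Agent.H370R2.Local
import Pool.Agent.H370R2.Rect
import Pool.Agent.MP06ac62.LC

set_option autoImplicit false

/-!
A zero of `G` in a rectangle forces `G'/G` times a test function to be large on the boundary.  The test
functions are `psi(s) / psi(ξ) * (Pi(s) - Pi(ξ)) / ((s - ξ) Pi(ξ))`, where `Pi` vanishes at all the zeros;
they are averaged over a circle `|ξ - w0| = r` on which `Pi` is not small (Cartan).
-/

namespace Pool.Agent.Zk3.CL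

open Complex Filter Topology MeasureTheory Set Metric

/-- The polynomial with the zeros `Z`. -/
noncomputable def PiZ (Z : Finset ℂ) (s : ℂ) : ℂ := ∏ z ∈ Z, (s - z)

lemma PiZ_diff (Z : Finset ℂ) : Differentiable ℂ (PiZ Z) := by
  have h : PiZ Z = fun s => ∏ z ∈ Z, (s - z) := rfl
  rw [h]
  fun_prop

lemma PiZ_zero {Z : Finset ℂ} {s : ℂ} (h : s ∈ Z) : PiZ Z s = 0 :=
  Finset.prod_eq_zero h (sub_self s)

lemma PiZ_norm (Z : Finset ℂ) (s : ℂ) : ‖PiZ Z s‖ = ∏ z ∈ Z, ‖s - z‖ := by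
  unfold PiZ
  rw [norm_prod]

lemma PiZ_le {Z : Finset ℂ} {s : ℂ} {D : ℝ} (h : ∀ z ∈ Z, ‖s - z‖ ≤ D) : ‖PiZ Z s‖ ≤ D ^ Z.card := by
  rw [PiZ_norm]
  exact (Finset.prod_le_prod (fun _ _ => norm_nonneg _) h).trans_eq (by rw [Finset.prod_const])

/-- Cartan: a circle on which the polynomial is not small. -/
lemma good_circle (Z : Finset ℂ) (w0 : ℂ) {κ : ℝ} (hκ : 0 < κ) :
    ∃ d : ℝ, κ / 16 ≤ d ∧ d ≤ κ / 8 ∧ ∀ ξ : ℂ, ‖ξ - w0‖ = d →
      (κ / (64 * Real.exp 1)) ^ Z.card ≤ ‖PiZ Z ξ‖ := by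
  rcases Nat.eq_zero_or_pos Z.card with h0 | hpos
  · refine ⟨κ / 16, le_rfl, by linarith, fun ξ _ => ?_⟩
    have : Z = ∅ := Finset.card_eq_zero.mp h0
    subst this
    simp [PiZ]
  have hl : 0 < κ / 32 := by positivity
  set r : Fin Z.card → ℝ := fun i => ‖((Z.equivFin.symm i : Z) : ℂ) - w0‖ with hr
  have hcar := MinMod.LC.cartan_real Z.card hpos r (κ / 32) hl
  set E : Set ℝ := {x : ℝ | ∏ i, |x - r i| ≤ (κ / 32 / (2 * Real.exp 1)) ^ Z.card} with hE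
  obtain ⟨d, hd1, hd2⟩ : ∃ d ∈ Set.Icc (κ / 16) (κ / 8), d ∉ E := by
    by_contra hcon
    push Not at hcon
    have h1 : volume (Set.Icc (κ / 16) (κ / 8)) ≤ volume E := measure_mono hcon
    rw [Real.volume_Icc] at h1
    have h2 := h1.trans hcar
    rw [ENNReal.ofReal_le_ofReal_iff hl.le] at h2
    linarith
  refine ⟨d, hd1.1, hd1.2, fun ξ hξ => ?_⟩
  rw [hE, mem_setOf_eq, not_le] at hd2
  have e1 : κ / 32 / (2 * Real.exp 1) = κ / (64 * Real.exp 1) := by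
    rw [div_div]; congr 1; ring
  rw [e1] at hd2
  refine hd2.le.trans ?_
  rw [PiZ_norm, ← Finset.prod_coe_sort Z, ← Equiv.prod_comp Z.equivFin.symm]
  refine Finset.prod_le_prod (fun _ _ => abs_nonneg _) (fun i _ => ?_)
  have h3 := abs_norm_sub_norm_le (ξ - w0) (((Z.equivFin.symm i : Z) : ℂ) - w0)
  rw [hξ] at h3
  have e2 : ξ - w0 - (((Z.equivFin.symm i : Z) : ℂ) - w0) = ξ - ((Z.equivFin.symm i : Z) : ℂ) := by ring
  rw [e2] at h3
  exact h3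

/-- The weight. -/
noncomputable def psi (u Q : ℝ) (w0 s : ℂ) : ℂ := Complex.exp (u * (s - w0) + Q * (s - w0) ^ 2)

lemma psi_ne (u Q : ℝ) (w0 s : ℂ) : psi u Q w0 s ≠ 0 := Complex.exp_ne_zero _

lemma psi_diff (u Q : ℝ) (w0 : ℂ) : Differentiable ℂ (psi u Q w0) := by
  have h : psi u Q w0 = fun s => Complex.exp (u * (s - w0) + Q * (s - w0) ^ 2) := rfl
  rw [h]
  fun_prop

lemma psi_norm (u Q : ℝ) (w0 s : ℂ) : ‖psi u Q w0 s‖ =
    Real.exp (u * (s - w0).re + Q * ((s - w0).re ^ 2 - (s - w0).im ^ 2)) := by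
  unfold psi
  rw [Complex.norm_exp]
  congr 1
  simp only [add_re, mul_re, ofReal_re, ofReal_im, zero_mul, sub_zero, pow_two]

/-- The test function. -/
noncomputable def phi (Z : Finset ℂ) (u Q : ℝ) (w0 ξ s : ℂ) : ℂ :=
  psi u Q w0 s * (psi u Q w0 ξ)⁻¹ * (PiZ Z ξ)⁻¹ * dslope (PiZ Z) ξ s

lemma phi_diff (Z : Finset ℂ) (u Q : ℝ) (w0 ξ : ℂ) : Differentiable ℂ (phi Z u Q w0 ξ) := by
  have h1 : Differentiable ℂ (dslope (PiZ Z) ξ) := by
    rw [← differentiableOn_univ, Complex.differentiableOn_dslope univ_mem, differentiableOn_univ]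
    exact PiZ_diff Z
  have h : phi Z u Q w0 ξ = fun s => psi u Q w0 s * (psi u Q w0 ξ)⁻¹ * (PiZ Z ξ)⁻¹ * dslope (PiZ Z) ξ s := rfl
  rw [h]
  exact (((psi_diff u Q w0).mul_const _).mul_const _).mul h1

lemma phi_zero {Z : Finset ℂ} {u Q : ℝ} {w0 ξ s : ℂ} (hs : s ∈ Z) (hξ : PiZ Z ξ ≠ 0) :
    phi Z u Q w0 ξ s = psi u Q w0 s * ((ξ - s)⁻¹ * (psi u Q w0 ξ)⁻¹) := by
  have hne : s ≠ ξ := by
    rintro rfl
    exact hξ (PiZ_zero hs)
  have hne' : ξ - s ≠ 0 := sub_ne_zero.mpr hne.symm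
  have hne'' : s - ξ ≠ 0 := sub_ne_zero.mpr hne
  unfold phi
  rw [dslope_of_ne _ hne, slope_def_field, PiZ_zero hs]
  have hp := psi_ne u Q w0 ξ
  field_simp
  ring

lemma phi_norm_le {Z : Finset ℂ} {u Q : ℝ} {w0 ξ s : ℂ} {D q δ : ℝ} (hD : ∀ z ∈ Z, ‖s - z‖ ≤ D)
    (hq : 0 < q) (hqD : q ≤ D) (hξ : q ^ Z.card ≤ ‖PiZ Z ξ‖) (hδ : 0 < δ) (hs : δ ≤ ‖s - ξ‖) :
    ‖phi Z u Q w0 ξ s‖ ≤ ‖psi u Q w0 s‖ * ‖(psi u Q w0 ξ)⁻¹‖ * (2 * (D / q) ^ Z.card / δ) := by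
  have hne : s ≠ ξ := by
    rintro rfl
    rw [sub_self, norm_zero] at hs
    linarith
  have hqp : 0 < q ^ Z.card := by positivity
  have hξp : 0 < ‖PiZ Z ξ‖ := hqp.trans_le hξ
  unfold phi
  rw [dslope_of_ne _ hne, slope_def_field, norm_mul, norm_mul, norm_mul, mul_assoc, norm_div, norm_inv (PiZ Z ξ)]
  refine mul_le_mul_of_nonneg_left ?_ (by positivity)
  have h1 : ‖PiZ Z s - PiZ Z ξ‖ ≤ D ^ Z.card + ‖PiZ Z ξ‖ :=
    (norm_sub_le _ _).trans (add_le_add (PiZ_le hD) le_rfl)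
  have h2 : ‖PiZ Z ξ‖⁻¹ * ‖PiZ Z s - PiZ Z ξ‖ ≤ 2 * (D / q) ^ Z.card := by
    rw [inv_mul_le_iff₀ hξp]
    refine h1.trans ?_
    have h3 : D ^ Z.card ≤ ‖PiZ Z ξ‖ * (D / q) ^ Z.card := by
      rw [div_pow, mul_div_assoc', le_div_iff₀ hqp]
      have : 0 ≤ D ^ Z.card := by
        have : 0 < D := hq.trans_le hqD
        positivity
      nlinarith
    have h4 : 1 ≤ (D / q) ^ Z.card := one_le_pow₀ ((one_le_div hq).mpr hqD)
    nlinarith
  rw [← mul_div_assoc]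
  exact div_le_div₀ (by
    have : 0 < D := hq.trans_le hqD
    positivity) h2 hδ hs

theorem detect {G : ℂ → ℂ} {Z : Finset ℂ} {w0 : ℂ} {u Q a b c d r E : ℝ} (hab : a < b) (hcd : c < d)
    (hr : 0 < r) (hG : AnalyticOnNhd ℂ G (Icc a b ×ℂ Icc c d))
    (hbd : ∀ s ∈ Icc a b ×ℂ Icc c d, G s = 0 → s ∈ Ioo a b ×ℂ Ioo c d)
    (hZ : ∀ s ∈ Icc a b ×ℂ Icc c d, G s = 0 → s ∈ Z)
    (hξ : ∀ ξ : ℂ, ‖ξ - w0‖ = r → PiZ Z ξ ≠ 0)
    (hw0 : w0 ∈ Ioo a b ×ℂ Ioo c d) (hG0 : G w0 = 0)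
    (hE : ∀ ξ : ℂ, ‖ξ - w0‖ = r → ∀ s ∈ H370.Bd a b c d, ‖deriv G s / G s * phi Z u Q w0 ξ s‖ ≤ E) :
    Real.pi ≤ r * ((b - a) + (d - c)) * E := by
  have hres := fun ξ => H370.rect_residue G (phi Z u Q w0 ξ) a b c d hab hcd hG (phi_diff Z u Q w0 ξ) hbd
  have hfin := (hres 0).1
  set S : Finset ℂ := hfin.toFinset with hS
  have hSm : ∀ s, s ∈ S ↔ s ∈ Ioo a b ×ℂ Ioo c d ∧ G s = 0 := fun s => by
    rw [hS, Set.Finite.mem_toFinset]; rfl
  have hSZ : ∀ s ∈ S, s ∈ Z := fun s hs => by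
    have h1 := (hSm s).1 hs
    exact hZ s ⟨Ioo_subset_Icc_self h1.1.1, Ioo_subset_Icc_self h1.1.2⟩ h1.2
  set P : ℂ → ℂ := fun ξ => ∑ s ∈ S, (H370.mult G s : ℂ) * (psi u Q w0 s * ((ξ - s)⁻¹ * (psi u Q w0 ξ)⁻¹))
    with hP
  have hEn : 0 ≤ E := by
    have h1 := hE (w0 + r) (by simp [abs_of_pos hr]) ⟨a, c⟩ (Or.inl ⟨⟨le_rfl, hab.le⟩, Or.inl rfl⟩)
    exact (norm_nonneg _).trans h1
  -- the bound of the sum for each `ξ`
  have hPb : ∀ ξ ∈ sphere w0 r, ‖P ξ‖ ≤ ((b - a) + (d - c)) * E / Real.pi := by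
    intro ξ hξs
    have hξr : ‖ξ - w0‖ = r := by rwa [mem_sphere, dist_eq_norm] at hξs
    have h2 := (hres ξ).2
    have e1 : ∑ᶠ s ∈ {s | s ∈ Ioo a b ×ℂ Ioo c d ∧ G s = 0}, (H370.mult G s : ℂ) * phi Z u Q w0 ξ s = P ξ := by
      rw [finsum_mem_eq_finite_toFinset_sum _ hfin, hP]
      refine Finset.sum_congr rfl fun s hs => ?_
      rw [phi_zero (hSZ s hs) (hξ ξ hξr)]
    rw [e1] at h2
    have b1 : ‖∫ x in a..b, deriv G (⟨x, c⟩ : ℂ) / G ⟨x, c⟩ * phi Z u Q w0 ξ ⟨x, c⟩‖ ≤ E * |b - a| :=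
      intervalIntegral.norm_integral_le_of_norm_le_const fun x hx => by
        rw [uIoc_of_le hab.le] at hx
        exact hE ξ hξr _ (Or.inl ⟨⟨hx.1.le, hx.2⟩, Or.inl rfl⟩)
    have b2 : ‖∫ x in a..b, deriv G (⟨x, d⟩ : ℂ) / G ⟨x, d⟩ * phi Z u Q w0 ξ ⟨x, d⟩‖ ≤ E * |b - a| :=
      intervalIntegral.norm_integral_le_of_norm_le_const fun x hx => by
        rw [uIoc_of_le hab.le] at hx
        exact hE ξ hξr _ (Or.inl ⟨⟨hx.1.le, hx.2⟩, Or.inr rfl⟩)
    have b3 : ‖∫ y in c..d, deriv G (⟨b, y⟩ : ℂ) / G ⟨b, y⟩ * phi Z u Q w0 ξ ⟨b, y⟩‖ ≤ E * |d - c| :=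
      intervalIntegral.norm_integral_le_of_norm_le_const fun x hx => by
        rw [uIoc_of_le hcd.le] at hx
        exact hE ξ hξr _ (Or.inr ⟨⟨hx.1.le, hx.2⟩, Or.inr rfl⟩)
    have b4 : ‖∫ y in c..d, deriv G (⟨a, y⟩ : ℂ) / G ⟨a, y⟩ * phi Z u Q w0 ξ ⟨a, y⟩‖ ≤ E * |d - c| :=
      intervalIntegral.norm_integral_le_of_norm_le_const fun x hx => by
        rw [uIoc_of_le hcd.le] at hx
        exact hE ξ hξr _ (Or.inr ⟨⟨hx.1.le, hx.2⟩, Or.inl rfl⟩)
    rw [abs_of_pos (by linarith)] at b1 b2 b3 b4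
    have h3 := congrArg norm h2
    rw [norm_mul, norm_mul, norm_mul, norm_I, mul_one, Complex.norm_ofNat, Complex.norm_real,
      Real.norm_eq_abs, abs_of_pos Real.pi_pos] at h3
    rw [le_div_iff₀ Real.pi_pos]
    have h4 : 2 * Real.pi * ‖P ξ‖ ≤ E * (b - a) + E * (b - a) + E * (d - c) + E * (d - c) := by
      rw [← h3]
      refine (norm_sub_le _ _).trans (add_le_add ((norm_add_le _ _).trans (add_le_add
        ((norm_sub_le _ _).trans (add_le_add b1 b2)) ?_)) ?_)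
      · rw [norm_mul, norm_I, one_mul]; exact b3
      · rw [norm_mul, norm_I, one_mul]; exact b4
    nlinarith
  -- the circle integral
  have hdist : ∀ s ∈ S, ‖s - w0‖ ≠ r := fun s hs h => hξ s h (PiZ_zero (hSZ s hs))
  have hinvc : ContinuousOn (fun ξ => (psi u Q w0 ξ)⁻¹) univ :=
    (psi_diff u Q w0).continuous.continuousOn.inv₀ fun ξ _ => psi_ne u Q w0 ξ
  have hpinv : Differentiable ℂ (fun ξ => (psi u Q w0 ξ)⁻¹) := (psi_diff u Q w0).inv (psi_ne u Q w0)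
  have hcirc : ∀ s ∈ S, (∮ ξ in C(w0, r), (ξ - s)⁻¹ * (psi u Q w0 ξ)⁻¹) =
      if ‖s - w0‖ < r then 2 * Real.pi * I * (psi u Q w0 s)⁻¹ else 0 := by
    intro s hs
    split_ifs with hlt
    · have h5 := (hpinv.diffContOnCl (s := ball w0 r)).circleIntegral_sub_inv_smul (w := s)
        (by rw [mem_ball, dist_eq_norm]; exact hlt)
      simpa [smul_eq_mul] using h5
    · have hgt : r < ‖s - w0‖ := lt_of_le_of_ne (not_lt.mp hlt) (hdist s hs).symm
      refine Complex.circleIntegral_eq_zero_of_differentiable_on_off_countable hr.le countable_empty ?_ ?_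
      · refine ContinuousOn.mul ?_ hpinv.continuous.continuousOn
        refine ContinuousOn.inv₀ (by fun_prop) fun ξ hξ' h0 => ?_
        rw [mem_closedBall, dist_eq_norm, sub_eq_zero.mp h0] at hξ'
        linarith
      · intro ξ hξ'
        have hne : ξ - s ≠ 0 := by
          intro h0
          have := hξ'.1
          rw [mem_ball, dist_eq_norm, sub_eq_zero.mp h0] at this
          linarith
        exact ((differentiableAt_id.sub_const s).inv hne).mul (hpinv ξ)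
  have hci : ∀ s ∈ S, CircleIntegrable
      (fun ξ => (H370.mult G s : ℂ) * (psi u Q w0 s * ((ξ - s)⁻¹ * (psi u Q w0 ξ)⁻¹))) w0 r := by
    intro s hs
    refine ContinuousOn.circleIntegrable hr.le ?_
    refine continuousOn_const.mul (continuousOn_const.mul (ContinuousOn.mul ?_ hpinv.continuous.continuousOn))
    refine ContinuousOn.inv₀ (by fun_prop) fun ξ hξ' h0 => ?_
    rw [mem_sphere, dist_eq_norm, sub_eq_zero.mp h0] at hξ'
    exact hdist s hs hξ'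
  have hint : (∮ ξ in C(w0, r), P ξ) =
      2 * Real.pi * I * ((∑ s ∈ S.filter (fun s => ‖s - w0‖ < r), (H370.mult G s : ℝ) : ℝ) : ℂ) := by
    rw [hP, circleIntegral.integral_fun_sum hci]
    have e2 : ∀ s ∈ S, (∮ ξ in C(w0, r), (H370.mult G s : ℂ) *
        (psi u Q w0 s * ((ξ - s)⁻¹ * (psi u Q w0 ξ)⁻¹))) =
        if ‖s - w0‖ < r then 2 * Real.pi * I * (H370.mult G s : ℂ) else 0 := by
      intro s hs
      rw [circleIntegral.integral_const_mul, circleIntegral.integral_const_mul, hcirc s hs]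
      have := psi_ne u Q w0 s
      split_ifs
      · field_simp
      · simp
    rw [Finset.sum_congr rfl e2, ← Finset.sum_filter]
    push_cast
    rw [Finset.mul_sum]
  have hmult : 1 ≤ H370.mult G w0 := by
    have hK : IsPreconnected (Icc a b ×ℂ Icc c d) := by
      have h1 := (convex_Icc a b).linear_preimage Complex.reLm
      have h2 := (convex_Icc c d).linear_preimage Complex.imLm
      exact (h1.inter h2).isPreconnected
    have hcorner : (⟨a, c⟩ : ℂ) ∈ Icc a b ×ℂ Icc c d := ⟨⟨le_rfl, hab.le⟩, ⟨le_rfl, hcd.le⟩⟩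
    have hcF : G ⟨a, c⟩ ≠ 0 := by
      intro h0
      have := (hbd _ hcorner h0).1
      rw [mem_preimage] at this
      exact absurd this.1 (lt_irrefl _)
    exact (H370.Loc.mult_pos hK hG hcorner hcF ⟨Ioo_subset_Icc_self hw0.1, Ioo_subset_Icc_self hw0.2⟩).2 hG0
  have hlow : (1 : ℝ) ≤ ∑ s ∈ S.filter (fun s => ‖s - w0‖ < r), (H370.mult G s : ℝ) := by
    have h6 : w0 ∈ S.filter (fun s => ‖s - w0‖ < r) := by
      rw [Finset.mem_filter, hSm]
      exact ⟨⟨hw0, hG0⟩, by simpa using hr⟩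
    refine le_trans ?_ (Finset.single_le_sum (fun s _ => by positivity) h6)
    exact_mod_cast hmult
  have hup := circleIntegral.norm_integral_le_of_norm_le_const hr.le hPb
  rw [hint, norm_mul, norm_mul, norm_mul, norm_I, mul_one, Complex.norm_ofNat, Complex.norm_real,
    Complex.norm_real, Real.norm_eq_abs, abs_of_pos Real.pi_pos, Real.norm_eq_abs,
    abs_of_nonneg (by linarith)] at hup
  have h7 : 2 * Real.pi * 1 ≤ 2 * Real.pi * r * (((b - a) + (d - c)) * E / Real.pi) :=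
    le_trans (mul_le_mul_of_nonneg_left hlow (by positivity)) hup
  have h8 : 2 * Real.pi * r * (((b - a) + (d - c)) * E / Real.pi) = 2 * (r * ((b - a) + (d - c)) * E) := by
    field_simp
  rw [h8] at h7
  linarith

end Pool.Agent.Zk3.CL
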