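import Pool.Agent.Zk3.CL.Count

set_option autoImplicit false

/-! The statement of the macroscopic part (`δ ≥ κ1` fixed). -/

namespace Pool.Agent.Zk3.CL

/-- Macroscopic distances from the line. -/
def S_MAC : Prop := ∀ ε κ1 : ℝ, 0 < ε → ε ≤ 1 → 0 < κ1 → κ1 ≤ 1 →
  ∃ A c C T0 : ℝ, 1 ≤ A ∧ 0 < c ∧ 0 < C ∧ 2 ≤ T0 ∧
    ∀ T δ : ℝ, T0 ≤ T → κ1 ≤ δ → δ ≤ 1 / 2 →
    ∀ S : Finset ℂ, (∀ s ∈ S, riemannZeta s = 0 ∧ 1 / 2 + δ ≤ s.re ∧ T < s.im ∧ s.im ≤ 2 * T ∧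
      Few ε A δ s.im (c * δ * Real.log T)) →
    ∑ s ∈ S, (analyticOrderNatAt riemannZeta s : ℝ) ≤
      C * T * Real.exp (-((2 - ε) * δ * Real.log T)) * Real.log T

end Pool.Agent.Zk3.CL
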