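import Pool.Agent.Zk3.CL.Micro2
import Pool.Agent.Zk3.CL.Spec
import Pool.Agent.Y24.F1

set_option autoImplicit false

/-! Dyadic summation. -/

namespace Pool.Agent.Zk3.CL

open Complex Filter Topology MeasureTheory Set
open Pool.Agent.Zk1.DH
open Pool.Agent.Y24 (ZZ ZZ_fin)

lemma Few.mono {ε A A' δ y X X' : ℝ} (h : Few ε A δ y X) (hA : A' ≤ A) (hδ : 0 ≤ δ) (hX : X ≤ X') :
    Few ε A' δ y X' := fun Z hZ =>
  (h Z fun z hz => ⟨(hZ z hz).1, (hZ z hz).2.1,
    (hZ z hz).2.2.trans (mul_le_mul_of_nonneg_right hA hδ)⟩).trans hX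

theorem window (hMP : S_MP) (hMP0 : S_MP0) (hMD : S_MD) (hMD0 : S_MD0) (hZC : S_ZC) (hNG : S_NG)
    (hZP : S_ZP) (hMAC : S_MAC) {ε : ℝ} (hε : 0 < ε) (hε1 : ε ≤ 1) :
    ∃ A c : ℝ, 1 ≤ A ∧ 0 < c ∧ ∀ K : ℝ, ∃ C T0 : ℝ, 0 < C ∧ 2 ≤ T0 ∧
    ∀ T δ : ℝ, T0 ≤ T → 0 ≤ δ → δ ≤ 1 / 2 →
    ∀ S : Finset ℂ, (∀ s ∈ S, riemannZeta s = 0 ∧ 1 / 2 + δ ≤ s.re ∧ T < s.im ∧ s.im ≤ 2 * T ∧
      Few ε A δ s.im (K + c * δ * Real.log s.im)) →
    ∑ s ∈ S, (analyticOrderNatAt riemannZeta s : ℝ) ≤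
      C * T * Real.exp (-((2 - ε) * δ * Real.log T)) * Real.log T := by
  obtain ⟨A1, c1, κ1, l0, C1, T1, hA1, hc1, hκ1, hκ11, hl0, hC1, hT1, hmic⟩ :=
    micro hMP hMP0 hMD hMD0 hZC hNG hZP hε hε1
  obtain ⟨A2, c2, C2, T2, hA2, hc2, hC2, hT2, hmac⟩ := hMAC ε κ1 hε hε1 hκ1 hκ11
  obtain ⟨C3, hC3, htot⟩ := Pool.Agent.Y24.total_count
  obtain ⟨c', hc'⟩ : ∃ c' : ℝ, c' = min c1 c2 := ⟨_, rfl⟩
  have hc'0 : 0 < c' := by rw [hc']; exact lt_min hc1 hc2
  have hc'1 : c' ≤ c1 := by rw [hc']; exact min_le_left _ _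
  have hc'2 : c' ≤ c2 := by rw [hc']; exact min_le_right _ _
  refine ⟨max A1 A2, c' / 4, hA1.trans (le_max_left _ _), by linarith, fun K => ?_⟩
  obtain ⟨l1, hl1⟩ : ∃ l1 : ℝ, l1 = l0 + 2 * |K| / c' := ⟨_, rfl⟩
  have hK0 := abs_nonneg K
  have hl10 : l0 ≤ l1 := by rw [hl1]; have : 0 ≤ 2 * |K| / c' := by positivity
                            linarith
  have hlK : |K| ≤ c' / 2 * l1 := by
    have : 2 * |K| / c' ≤ l1 := by linarith
    rw [div_le_iff₀ hc'0] at this
    linarith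
  refine ⟨C1 + C2 + 4 * C3 * Real.exp (2 * l1), max (max T1 T2) 2, by positivity, le_max_right _ _, ?_⟩
  intro T δ hT hδ hδ2 S hS
  have hTT1 : T1 ≤ T := ((le_max_left _ _).trans (le_max_left _ _)).trans hT
  have hTT2 : T2 ≤ T := ((le_max_right _ _).trans (le_max_left _ _)).trans hT
  have hT02 : 2 ≤ T := (le_max_right _ _).trans hT
  have hTp : 0 < T := by linarith
  have hL : 0 < Real.log T := Real.log_pos (by linarith)
  obtain ⟨E, hE⟩ : ∃ E : ℝ, E = Real.exp (-((2 - ε) * δ * Real.log T)) := ⟨_, rfl⟩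
  have hE0 : 0 < E := by rw [hE]; exact Real.exp_pos _
  rw [← hE]
  have hlogs : ∀ s ∈ S, Real.log s.im ≤ 2 * Real.log T := by
    intro s hs
    obtain ⟨-, -, h3, h4, -⟩ := hS s hs
    have : Real.log s.im ≤ Real.log (T * T) := Real.log_le_log (by linarith) (by nlinarith)
    rw [Real.log_mul hTp.ne' hTp.ne'] at this
    linarith
  rcases lt_or_ge (δ * Real.log T) l1 with hsm | hbig
  · -- trivial bound
    have h1 := htot (2 * T) (by linarith) S (fun s hs => by
      obtain ⟨h1, h2, h3, h4, -⟩ := hS s hs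
      exact ⟨h1, by linarith, by linarith, h4⟩)
    have h2 : Real.log (2 * T) ≤ 2 * Real.log T := by
      have : Real.log (2 * T) ≤ Real.log (T * T) := Real.log_le_log (by linarith) (by nlinarith)
      rw [Real.log_mul hTp.ne' hTp.ne'] at this
      linarith
    have h3 : 1 ≤ Real.exp (2 * l1) * E := by
      rw [hE, ← Real.exp_add]
      refine Real.one_le_exp ?_
      have : 0 ≤ δ * Real.log T := by positivity
      nlinarith
    calc ∑ s ∈ S, (analyticOrderNatAt riemannZeta s : ℝ) ≤ C3 * (2 * T) * Real.log (2 * T) := h1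
      _ ≤ C3 * (2 * T) * (2 * Real.log T) := mul_le_mul_of_nonneg_left h2 (by positivity)
      _ = (4 * C3 * T * Real.log T) * 1 := by ring
      _ ≤ (4 * C3 * T * Real.log T) * (Real.exp (2 * l1) * E) := mul_le_mul_of_nonneg_left h3 (by positivity)
      _ = (4 * C3 * Real.exp (2 * l1)) * T * E * Real.log T := by ring
      _ ≤ (C1 + C2 + 4 * C3 * Real.exp (2 * l1)) * T * E * Real.log T := by
          have : 0 ≤ T * E * Real.log T := by positivity
          nlinarith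
  · have hδp : 0 < δ := by
      rcases hδ.lt_or_eq with h | h
      · exact h
      · exfalso
        rw [← h, zero_mul] at hbig
        linarith
    have hthr : ∀ s ∈ S, K + c' / 4 * δ * Real.log s.im ≤ c' * δ * Real.log T := by
      intro s hs
      have h1 := hlogs s hs
      have h2 : c' / 4 * δ * Real.log s.im ≤ c' / 4 * δ * (2 * Real.log T) :=
        mul_le_mul_of_nonneg_left h1 (by positivity)
      have h3 : K ≤ c' / 2 * (δ * Real.log T) :=
        (le_abs_self K).trans (hlK.trans (mul_le_mul_of_nonneg_left hbig (by positivity)))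
      nlinarith
    have hpos : 0 ≤ δ * Real.log T := by positivity
    have hfac : 0 ≤ T * E * Real.log T := by positivity
    have hexp := Real.exp_pos (2 * l1)
    rcases le_or_gt δ κ1 with hδκ | hδκ
    · have h1 := hmic T δ hTT1 hδp hδκ (hl10.trans hbig) S (fun s hs => by
        obtain ⟨h1, h2, h3, h4, h5⟩ := hS s hs
        refine ⟨h1, h2, h3, h4, h5.mono (le_max_left _ _) hδ ((hthr s hs).trans ?_)⟩
        nlinarith)
      rw [← hE] at h1
      refine h1.trans ?_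
      nlinarith [mul_nonneg hC2.le hfac, mul_nonneg (mul_nonneg hC3.le hexp.le) hfac]
    · have h1 := hmac T δ hTT2 hδκ.le hδ2 S (fun s hs => by
        obtain ⟨h1, h2, h3, h4, h5⟩ := hS s hs
        refine ⟨h1, h2, h3, h4, h5.mono (le_max_right _ _) hδ ((hthr s hs).trans ?_)⟩
        nlinarith)
      rw [← hE] at h1
      refine h1.trans ?_
      nlinarith [mul_nonneg hC1.le hfac, mul_nonneg (mul_nonneg hC3.le hexp.le) hfac]

/-- The main theorem (finite form). -/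
theorem final (hMP : S_MP) (hMP0 : S_MP0) (hMD : S_MD) (hMD0 : S_MD0) (hZC : S_ZC) (hNG : S_NG)
    (hZP : S_ZP) (hMAC : S_MAC) {ε : ℝ} (hε : 0 < ε) (hε1 : ε ≤ 1) :
    ∃ A c : ℝ, 1 ≤ A ∧ 0 < c ∧ ∀ K : ℝ, ∃ C : ℝ, 0 < C ∧
    ∀ T δ : ℝ, 2 ≤ T → 0 ≤ δ → δ ≤ 1 / 2 →
    ∀ S : Finset ℂ, (∀ s ∈ S, riemannZeta s = 0 ∧ 1 / 2 + δ ≤ s.re ∧ 0 < s.im ∧ s.im ≤ T ∧
      Few ε A δ s.im (K + c * δ * Real.log s.im)) →
    ∑ s ∈ S, (analyticOrderNatAt riemannZeta s : ℝ) ≤
      C * T ^ (1 - (2 - ε) * δ) * Real.log T := by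
  obtain ⟨A, c, hA, hc, hw⟩ := window hMP hMP0 hMD hMD0 hZC hNG hZP hMAC hε hε1
  refine ⟨A, c, hA, hc, fun K => ?_⟩
  obtain ⟨C1, T0, hC1, hT0, hwin⟩ := hw K
  obtain ⟨C3, hC3, htot⟩ := Pool.Agent.Y24.total_count
  have hT0p : 0 < T0 := by linarith
  have hl2 : 0 < Real.log 2 := Real.log_pos (by norm_num)
  have hlT0 : 0 < Real.log (2 * T0) := Real.log_pos (by linarith)
  obtain ⟨q, hq⟩ : ∃ q : ℝ, q = (2 : ℝ) ^ (ε / 2) - 1 := ⟨_, rfl⟩
  have hq0 : 0 < q := by
    rw [hq]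
    have := Real.one_lt_rpow (show (1 : ℝ) < 2 by norm_num) (show 0 < ε / 2 by linarith)
    linarith
  obtain ⟨C, hC⟩ : ∃ C : ℝ, C = C1 / q + C3 * (2 * T0) * Real.log (2 * T0) / Real.log 2 := ⟨_, rfl⟩
  have hCa : C1 ≤ C * q := by
    rw [hC, add_mul, div_mul_cancel₀ _ hq0.ne']
    have : 0 ≤ C3 * (2 * T0) * Real.log (2 * T0) / Real.log 2 * q := by positivity
    linarith
  have hCb : C3 * (2 * T0) * Real.log (2 * T0) ≤ C * Real.log 2 := by
    rw [hC, add_mul, div_mul_cancel₀ _ hl2.ne']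
    have : 0 ≤ C1 / q * Real.log 2 := by positivity
    linarith
  have hC0 : 0 < C := by rw [hC]; positivity
  refine ⟨C, hC0, ?_⟩
  classical
  have hmain : ∀ n : ℕ, ∀ T δ : ℝ, 2 ≤ T → T ≤ 2 ^ (n + 1) * T0 → 0 ≤ δ → δ ≤ 1 / 2 →
    ∀ S : Finset ℂ, (∀ s ∈ S, riemannZeta s = 0 ∧ 1 / 2 + δ ≤ s.re ∧ 0 < s.im ∧ s.im ≤ T ∧
      Few ε A δ s.im (K + c * δ * Real.log s.im)) →
    ∑ s ∈ S, (analyticOrderNatAt riemannZeta s : ℝ) ≤ C * T ^ (1 - (2 - ε) * δ) * Real.log T := by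
    intro n
    induction n with
    | zero =>
      intro T δ hT hTn hδ hδ2 S hS
      have hα : 0 ≤ 1 - (2 - ε) * δ := by nlinarith
      have h1 := htot (2 * T0) (by linarith) S (fun s hs => by
        obtain ⟨h1, h2, h3, h4, -⟩ := hS s hs
        exact ⟨h1, by linarith, h3, by rw [zero_add, pow_one] at hTn; linarith⟩)
      have h2 : 1 ≤ T ^ (1 - (2 - ε) * δ) := Real.one_le_rpow (by linarith) hα
      have h3 : Real.log 2 ≤ Real.log T := Real.log_le_log (by norm_num) hT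
      calc _ ≤ C3 * (2 * T0) * Real.log (2 * T0) := h1
        _ ≤ C * Real.log 2 := hCb
        _ ≤ C * Real.log T := mul_le_mul_of_nonneg_left h3 hC0.le
        _ = C * 1 * Real.log T := by ring
        _ ≤ C * T ^ (1 - (2 - ε) * δ) * Real.log T := by
            refine mul_le_mul_of_nonneg_right (mul_le_mul_of_nonneg_left h2 hC0.le) ?_
            linarith
    | succ n ih =>
      intro T δ hT hTn hδ hδ2 S hS
      rcases le_or_gt T (2 * T0) with hs | hb
      · refine ih T δ hT (hs.trans ?_) hδ hδ2 S hS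
        have : (1 : ℝ) ≤ 2 ^ n := one_le_pow₀ (by norm_num)
        rw [pow_succ]
        nlinarith
      have hα : ε / 2 ≤ 1 - (2 - ε) * δ := by nlinarith
      obtain ⟨α, hαe⟩ : ∃ α : ℝ, α = 1 - (2 - ε) * δ := ⟨_, rfl⟩
      rw [← hαe] at hα
      have hTp : 0 < T := by linarith
      have hT2 : T0 ≤ T / 2 := by linarith
      have hT2' : 0 < T / 2 := by linarith
      have hLT2 : 0 < Real.log (T / 2) := Real.log_pos (by linarith)
      have hlog : Real.log (T / 2) ≤ Real.log T := Real.log_le_log hT2' (by linarith)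
      have hsplit := Finset.sum_filter_add_sum_filter_not S (fun s => s.im ≤ T / 2)
        (fun s => (analyticOrderNatAt riemannZeta s : ℝ))
      have h1 := ih (T / 2) δ (by linarith) (by rw [div_le_iff₀ (by norm_num)]; rw [pow_succ] at hTn; linarith)
        hδ hδ2 (S.filter (fun s => s.im ≤ T / 2)) (fun s hs => by
          rw [Finset.mem_filter] at hs
          obtain ⟨g1, g2, g3, g4, g5⟩ := hS s hs.1
          exact ⟨g1, g2, g3, hs.2, g5⟩)
      have h2 := hwin (T / 2) δ hT2 hδ hδ2 (S.filter (fun s => ¬ s.im ≤ T / 2)) (fun s hs => by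
          rw [Finset.mem_filter] at hs
          obtain ⟨g1, g2, g3, g4, g5⟩ := hS s hs.1
          exact ⟨g1, g2, not_le.mp hs.2, by linarith, g5⟩)
      have h3 : T / 2 * Real.exp (-((2 - ε) * δ * Real.log (T / 2))) = (T / 2) ^ α := by
        rw [hαe, Real.rpow_def_of_pos hT2']
        conv_lhs => rw [← Real.exp_log hT2', Real.exp_log hT2']
        nth_rewrite 1 [← Real.exp_log hT2']
        rw [← Real.exp_add]
        congr 1
        ring
      rw [← hαe] at h1 ⊢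
      rw [mul_assoc C1, h3] at h2
      have h4 : (T / 2) ^ α * (1 + q) ≤ T ^ α := by
        have e1 : T ^ α = (T / 2) ^ α * 2 ^ α := by
          rw [← Real.mul_rpow hT2'.le (by norm_num)]
          congr 1
          ring
        rw [e1]
        refine mul_le_mul_of_nonneg_left ?_ (Real.rpow_nonneg hT2'.le _)
        rw [hq]
        have := Real.rpow_le_rpow_of_exponent_le (show (1 : ℝ) ≤ 2 by norm_num) hα
        linarith
      have hX0 : 0 ≤ (T / 2) ^ α := Real.rpow_nonneg hT2'.le _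
      have hlT : 0 < Real.log T := by linarith
      calc _ = _ := hsplit.symm
        _ ≤ C * (T / 2) ^ α * Real.log (T / 2) + C1 * (T / 2) ^ α * Real.log (T / 2) := add_le_add h1 h2
        _ ≤ C * (T / 2) ^ α * Real.log T + (C * q) * (T / 2) ^ α * Real.log T := by
            refine add_le_add ?_ ?_
            · exact mul_le_mul_of_nonneg_left hlog (by positivity)
            · exact mul_le_mul (mul_le_mul_of_nonneg_right hCa hX0) hlog hLT2.le (by positivity)
        _ = C * ((T / 2) ^ α * (1 + q)) * Real.log T := by ring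
        _ ≤ C * T ^ α * Real.log T :=
            mul_le_mul_of_nonneg_right (mul_le_mul_of_nonneg_left h4 hC0.le) hlT.le
  intro T δ hT hδ hδ2 S hS
  obtain ⟨n, hn⟩ := pow_unbounded_of_one_lt T (show (1 : ℝ) < 2 by norm_num)
  refine hmain n T δ hT ?_ hδ hδ2 S hS
  have : (0 : ℝ) < 2 ^ n := by positivity
  rw [pow_succ]
  nlinarith

end Pool.Agent.Zk3.CL
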