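import Pool.Agent.Zk69.DH.LM

set_option autoImplicit false

/-!
From the local situation `LH`: the quotient `G = F / F0` is at most `e^((B+4) n)`, and it is within
`e^(-n Re w / K0)` of one for `Re w ≥ 2 B + 8`.
-/

namespace Pool.Agent.Zk3.CL

open Complex Filter Topology MeasureTheory Set
open Pool.Agent.Zk1.DH
open Pool.Agent.Zk69.DH

lemma log_quot_le {k : ℕ} (hk : 2 ≤ k) : Real.log (((k : ℝ) + 1) / (k - 1)) ≤ 6 / ((k : ℝ) + 1) := by
  have hk2 : (2 : ℝ) ≤ k := by exact_mod_cast hk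
  have h0 : (0 : ℝ) < (k : ℝ) - 1 := by linarith
  have h1 := Real.log_le_sub_one_of_pos (x := ((k : ℝ) + 1) / (k - 1)) (by positivity)
  refine h1.trans ?_
  rw [div_sub_one h0.ne', div_le_div_iff₀ h0 (by positivity)]
  linarith

theorem lh_G {κ ε η B C3 ρ : ℝ} {K0 n : ℕ} {F F0 : ℂ → ℂ} {D : ℕ → ℂ → ℂ}
    (h : LH κ ε η B C3 1 ρ ρ K0 n F F0 D) (hκ : 0 < κ) (hκ1 : κ ≤ 1 / 4) (hε : 0 ≤ ε) (hε1 : ε ≤ 1)
    (hη : 0 < η) (hηρ : η * (2 * ρ + 4) ≤ 1) (hρ : 1 ≤ ρ) (hB : 1 ≤ B) (hK0 : 3 ≤ K0)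
    (hn : K0 ^ 2 ≤ n) (w : ℂ) (h1 : 1 - κ ≤ w.re) (h2 : w.re ≤ ρ + 2) (h3 : |w.im| ≤ ρ + 1) :
    ‖F w / F0 w‖ ≤ Real.exp ((B + 4) * n) ∧
    (2 * B + 8 ≤ w.re → ‖F w / F0 w - 1‖ ≤ Real.exp (-(1 / (K0 : ℝ) * n * w.re))) := by
  have hK0R : (3 : ℝ) ≤ K0 := by exact_mod_cast hK0
  have hnK : ((K0 : ℝ)) ^ 2 ≤ n := by exact_mod_cast hn
  have hnK' : (K0 : ℝ) ≤ n := by nlinarith
  have hn9 : (9 : ℝ) ≤ n := by nlinarith
  have hn0 : (0 : ℝ) < n := by linarith
  -- the size of `F0`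
  have hreg := h.reg
  have h2' : w.re ≤ ρ + 1 + 1 := by linarith
  have hF0w : 0 < ‖F0 w‖ := norm_pos_iff.mpr (hreg w h1 h2' h3).2.1
  have hlow : ‖F0 1‖ ≤ Real.exp ((2 - w.re) * n) * ‖F0 w‖ := by
    have h4 := grow_seg F0 n η w 1 hη.le hn0.le ?_
    · refine h4.trans ?_
      refine mul_le_mul_of_nonneg_right (Real.exp_le_exp.mpr ?_) (norm_nonneg _)
      have h5 : ‖(1 : ℂ) - w‖ ≤ 2 * ρ + 4 := by
        refine (Complex.norm_le_abs_re_add_abs_im _).trans ?_
        have h6 : |((1 : ℂ) - w).re| ≤ ρ + 1 := by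
          rw [Complex.sub_re, Complex.one_re, abs_le]
          constructor <;> linarith
        have h7 : |((1 : ℂ) - w).im| ≤ ρ + 1 := by
          rw [Complex.sub_im, Complex.one_im, zero_sub, abs_neg]
          exact h3
        linarith
      have h8 : η * n * ‖(1 : ℂ) - w‖ ≤ n := by
        have : η * ‖(1 : ℂ) - w‖ ≤ 1 := (mul_le_mul_of_nonneg_left h5 hη.le).trans hηρ
        nlinarith
      rw [Complex.one_re]
      nlinarith
    · intro x hx
      refine hreg _ ?_ ?_ ?_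
      · have : (w + (x : ℂ) * (1 - w)).re = w.re + x * (1 - w.re) := by simp
        rw [this]
        nlinarith [hx.1, hx.2]
      · have : (w + (x : ℂ) * (1 - w)).re = w.re + x * (1 - w.re) := by simp
        rw [this]
        nlinarith [hx.1, hx.2]
      · have : (w + (x : ℂ) * (1 - w)).im = (1 - x) * w.im := by simp; ring
        rw [this, abs_mul, abs_of_nonneg (by linarith [hx.2])]
        calc (1 - x) * |w.im| ≤ 1 * |w.im| := mul_le_mul_of_nonneg_right (by linarith [hx.1]) (abs_nonneg _)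
          _ ≤ ρ + 1 := by linarith
  -- the error term
  have hE : ‖F w / F0 w - (1 + ∑ k ∈ Finset.Ico 2 K0, D k w)‖ ≤ Real.exp ((B + 2 - w.re) * n) := by
    have h4 := h.Ebd w h1 h2' h3
    have e1 : F w / F0 w - (1 + ∑ k ∈ Finset.Ico 2 K0, D k w) =
        (F w - F0 w * (1 + ∑ k ∈ Finset.Ico 2 K0, D k w)) / F0 w := by
      have := (hreg w h1 h2' h3).2.1
      field_simp
    rw [e1, norm_div, div_le_iff₀ hF0w]
    refine h4.trans ?_
    calc ‖F0 1‖ * Real.exp (B * n) ≤ Real.exp ((2 - w.re) * n) * ‖F0 w‖ * Real.exp (B * n) :=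
          mul_le_mul_of_nonneg_right hlow (Real.exp_pos _).le
      _ = Real.exp ((2 - w.re) * n) * Real.exp (B * n) * ‖F0 w‖ := by ring
      _ = Real.exp ((B + 2 - w.re) * n) * ‖F0 w‖ := by
          rw [← Real.exp_add]; congr 2; ring
  -- the blocks
  have hD : ∀ k ∈ Finset.Ico 2 K0, ‖D k w‖ ≤ Real.exp ((6 - 2 * w.re) * n / ((k : ℝ) + 1)) := by
    intro k hk
    have hk2 : 2 ≤ k := (Finset.mem_Ico.mp hk).1
    have hk2R : (2 : ℝ) ≤ k := by exact_mod_cast hk2
    refine (h.Dbd k hk w h1 h2' h3).trans ?_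
    have hq : (0 : ℝ) < ((k : ℝ) + 1) / (k - 1) := by
      have : (0 : ℝ) < (k : ℝ) - 1 := by linarith
      positivity
    rw [Real.rpow_def_of_pos hq, ← Real.exp_add]
    refine Real.exp_le_exp.mpr ?_
    have h5 := log_quot_le hk2
    have h6 : 0 ≤ Real.log (((k : ℝ) + 1) / (k - 1)) := Real.log_nonneg (by
      rw [one_le_div (by linarith)]; linarith)
    have h7 : Real.log (((k : ℝ) + 1) / (k - 1)) * ((1 - ε) * n) ≤ 6 / ((k : ℝ) + 1) * n := by
      calc Real.log (((k : ℝ) + 1) / (k - 1)) * ((1 - ε) * n)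
          ≤ Real.log (((k : ℝ) + 1) / (k - 1)) * n := by
            refine mul_le_mul_of_nonneg_left ?_ h6
            nlinarith
        _ ≤ _ := mul_le_mul_of_nonneg_right h5 hn0.le
    have e2 : (6 - 2 * w.re) * n / ((k : ℝ) + 1) = 6 / ((k : ℝ) + 1) * n + -(2 * n * w.re / ((k : ℝ) + 1)) := by
      ring
    rw [e2]
    linarith
  have hcard : ((Finset.Ico 2 K0).card : ℝ) ≤ K0 := by
    rw [Nat.card_Ico]
    have : K0 - 2 ≤ K0 := Nat.sub_le _ _
    exact_mod_cast this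
  have hexpn := Real.add_one_le_exp (n : ℝ)
  constructor
  · have hS : ‖∑ k ∈ Finset.Ico 2 K0, D k w‖ ≤ Real.exp (3 * n) := by
      refine (norm_sum_le _ _).trans ?_
      refine (Finset.sum_le_sum fun k hk => (hD k hk).trans
        (Real.exp_le_exp.mpr (?_ : _ ≤ 2 * (n : ℝ)))).trans ?_
      · have hk2 : (2 : ℝ) ≤ k := by exact_mod_cast (Finset.mem_Ico.mp hk).1
        rw [div_le_iff₀ (by positivity)]
        nlinarith
      · rw [Finset.sum_const, nsmul_eq_mul]
        calc ((Finset.Ico 2 K0).card : ℝ) * Real.exp (2 * n) ≤ Real.exp n * Real.exp (2 * n) :=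
              mul_le_mul_of_nonneg_right (by linarith) (Real.exp_pos _).le
          _ = Real.exp (3 * n) := by rw [← Real.exp_add]; congr 1; ring
    have hE' : Real.exp ((B + 2 - w.re) * n) ≤ Real.exp ((B + 2) * n) :=
      Real.exp_le_exp.mpr (mul_le_mul_of_nonneg_right (by linarith) hn0.le)
    have h3n : Real.exp (3 * n) ≤ Real.exp ((B + 2) * n) :=
      Real.exp_le_exp.mpr (mul_le_mul_of_nonneg_right (by linarith) hn0.le)
    have h1n : 1 ≤ Real.exp ((B + 2) * n) := Real.one_le_exp (by positivity)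
    have e3 : F w / F0 w = (F w / F0 w - (1 + ∑ k ∈ Finset.Ico 2 K0, D k w)) +
        (1 + ∑ k ∈ Finset.Ico 2 K0, D k w) := by ring
    calc ‖F w / F0 w‖ ≤ ‖F w / F0 w - (1 + ∑ k ∈ Finset.Ico 2 K0, D k w)‖ +
          ‖(1 : ℂ) + ∑ k ∈ Finset.Ico 2 K0, D k w‖ := by
            conv_lhs => rw [e3]
            exact norm_add_le _ _
      _ ≤ Real.exp ((B + 2) * n) + (1 + Real.exp ((B + 2) * n)) := by
            refine add_le_add (hE.trans hE') ((norm_add_le _ _).trans ?_)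
            rw [norm_one]
            linarith
      _ ≤ 3 * Real.exp ((B + 2) * n) := by linarith
      _ ≤ Real.exp n * Real.exp ((B + 2) * n) :=
            mul_le_mul_of_nonneg_right (by linarith) (Real.exp_pos _).le
      _ ≤ Real.exp ((B + 4) * n) := by
            rw [← Real.exp_add]
            refine Real.exp_le_exp.mpr ?_
            nlinarith
  · intro hwB
    have hw10 : 10 ≤ w.re := by linarith
    have hKp : (0 : ℝ) < K0 := by linarith
    have hS : ‖∑ k ∈ Finset.Ico 2 K0, D k w‖ ≤ K0 * Real.exp ((6 - 2 * w.re) * n / K0) := by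
      refine (norm_sum_le _ _).trans ?_
      refine (Finset.sum_le_sum fun k hk => (hD k hk).trans
        (Real.exp_le_exp.mpr (?_ : _ ≤ (6 - 2 * w.re) * n / (K0 : ℝ)))).trans ?_
      · have hk2 : (k : ℝ) + 1 ≤ K0 := by exact_mod_cast (Finset.mem_Ico.mp hk).2
        rw [div_le_div_iff₀ (by positivity) hKp]
        have : (6 - 2 * w.re) * n ≤ 0 := by nlinarith
        nlinarith
      · rw [Finset.sum_const, nsmul_eq_mul]
        exact mul_le_mul_of_nonneg_right hcard (Real.exp_pos _).le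
    have e3 : F w / F0 w - 1 = (F w / F0 w - (1 + ∑ k ∈ Finset.Ico 2 K0, D k w)) +
        ∑ k ∈ Finset.Ico 2 K0, D k w := by ring
    have hexpK := Real.add_one_le_exp ((n : ℝ) / K0)
    have hnK2 : (K0 : ℝ) ≤ n / K0 := by
      rw [le_div_iff₀ hKp]; nlinarith
    have hb1 : K0 * Real.exp ((6 - 2 * w.re) * n / K0) ≤ 1 / 2 * Real.exp (-(1 / (K0 : ℝ) * n * w.re)) := by
      have e4 : (6 - 2 * w.re) * n / K0 = -(1 / (K0 : ℝ) * n * w.re) + (6 - w.re) * (n / K0) := by
        field_simp; ring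
      rw [e4, Real.exp_add]
      have e5 : K0 * Real.exp ((6 - w.re) * (n / K0)) ≤ 1 / 2 := by
        have h8 : Real.exp ((6 - w.re) * (n / K0)) ≤ Real.exp (-(2 * (n / K0))) := by
          refine Real.exp_le_exp.mpr ?_
          have : 0 ≤ (n : ℝ) / K0 := by positivity
          nlinarith
        have h9 : Real.exp (-(2 * (n / K0))) * (Real.exp (n / K0) * Real.exp (n / K0)) = 1 := by
          rw [← Real.exp_add, ← Real.exp_add]
          have : -(2 * ((n : ℝ) / K0)) + (n / K0 + n / K0) = 0 := by ring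
          rw [this, Real.exp_zero]
        have h10 : (2 * K0 : ℝ) ≤ Real.exp (n / K0) * Real.exp (n / K0) := by nlinarith
        have h11 := Real.exp_pos (-(2 * ((n : ℝ) / K0)))
        nlinarith
      calc K0 * (Real.exp (-(1 / (K0 : ℝ) * n * w.re)) * Real.exp ((6 - w.re) * (n / K0)))
          = Real.exp (-(1 / (K0 : ℝ) * n * w.re)) * (K0 * Real.exp ((6 - w.re) * (n / K0))) := by ring
        _ ≤ Real.exp (-(1 / (K0 : ℝ) * n * w.re)) * (1 / 2) :=
            mul_le_mul_of_nonneg_left e5 (Real.exp_pos _).le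
        _ = _ := by ring
    have hb2 : Real.exp ((B + 2 - w.re) * n) ≤ 1 / 2 * Real.exp (-(1 / (K0 : ℝ) * n * w.re)) := by
      have h12 : (B + 2 - w.re) * n + 1 ≤ -(1 / (K0 : ℝ) * n * w.re) := by
        have h13 : 1 / (K0 : ℝ) ≤ 1 / 3 := one_div_le_one_div_of_le (by norm_num) hK0R
        have h14 : 1 / (K0 : ℝ) * n * w.re ≤ 1 / 3 * n * w.re := by
          have : 0 ≤ (n : ℝ) * w.re := by positivity
          nlinarith
        nlinarith
      have h15 : Real.exp ((B + 2 - w.re) * n) * Real.exp 1 ≤ Real.exp (-(1 / (K0 : ℝ) * n * w.re)) := by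
        rw [← Real.exp_add]
        exact Real.exp_le_exp.mpr h12
      have h16 := Real.exp_one_gt_d9
      have h17 := Real.exp_pos ((B + 2 - w.re) * n)
      nlinarith
    rw [e3]
    refine (norm_add_le _ _).trans ?_
    linarith [hE.trans hb2, hS.trans hb1]

end Pool.Agent.Zk3.CL
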