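import Pool.Agent.Zk3.CL.Det

set_option autoImplicit false

/-!
The local theorem.  `G` is analytic and at most `e^(M n)` in a rectangle, and `G - 1` is at most
`e^(-a n Re w)` in its right part (a spectral gap).  A zero `w0`, `Re w0 ≥ 1`, forces at least `c n` zeros
in the rectangle.
-/

namespace Pool.Agent.Zk3.CL

open Complex Filter Topology MeasureTheory Set Metric

lemma pigeon_scaled (Γ : Finset ℝ) (α : ℝ) {l : ℝ} (hl : 0 < l) :
    ∃ x ∈ Icc α (α + l), ∀ γ ∈ Γ, l / (2 * ((Γ.card : ℝ) + 1)) ≤ |x - γ| := by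
  classical
  obtain ⟨U, hU, h⟩ := H370.Loc.pigeon (Γ.image fun γ => γ / l) (α / l)
  refine ⟨l * U, ⟨?_, ?_⟩, fun γ hγ => ?_⟩
  · have := mul_le_mul_of_nonneg_left hU.1 hl.le
    rwa [mul_div_cancel₀ _ hl.ne'] at this
  · have := mul_le_mul_of_nonneg_left hU.2 hl.le
    rwa [mul_add, mul_div_cancel₀ _ hl.ne', mul_one] at this
  · have h1 := h (γ / l) (Finset.mem_image_of_mem _ hγ)
    have h2 : ((Γ.image fun γ => γ / l).card : ℝ) ≤ Γ.card := by exact_mod_cast Finset.card_image_le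
    have h3 : 1 / (2 * ((Γ.card : ℝ) + 1)) ≤ |U - γ / l| := by
      refine le_trans ?_ h1
      exact one_div_le_one_div_of_le (by positivity) (by linarith)
    have h4 : |l * U - γ| = l * |U - γ / l| := by
      rw [← abs_of_pos hl, ← abs_mul, abs_of_pos hl]
      congr 1
      field_simp
    rw [h4, show l / (2 * ((Γ.card : ℝ) + 1)) = l * (1 / (2 * ((Γ.card : ℝ) + 1))) by ring]
    exact mul_le_mul_of_nonneg_left h3 hl.le

lemma ld_bound {κ ρ M : ℝ} (hκ : 0 < κ) (hκ1 : κ ≤ 1 / 4) (hρ : 8 ≤ ρ) (hM : 1 ≤ M) :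
    ∃ K : ℝ, 1 ≤ K ∧ ∀ (n : ℝ) (G : ℂ → ℂ), 1 ≤ n →
    (∀ w : ℂ, 1 - κ ≤ w.re → w.re ≤ 2 * ρ → |w.im| ≤ 5 * ρ → AnalyticAt ℂ G w ∧ ‖G w‖ ≤ Real.exp (M * n)) →
    ∀ (y δ : ℝ) (z : ℂ), |y| ≤ 3 * ρ + 1 → 1 / 2 ≤ ‖G (ρ + y * I)‖ →
    z.im = y → |z.re - ρ| ≤ ρ - 1 + 3 * κ / 4 → 0 < δ → δ ≤ 1 →
    (∀ w : ℂ, 1 - κ ≤ w.re → w.re ≤ 2 * ρ → |w.im| ≤ 5 * ρ → G w = 0 → δ ≤ ‖z - w‖) →
    G z ≠ 0 ∧ ‖deriv G z / G z‖ ≤ K * n / δ := by
  set R := ρ - 1 + κ with hR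
  set r := ρ - 1 + 15 * κ / 16 with hr
  set r1 := ρ - 1 + 7 * κ / 8 with hr1
  set r2 := ρ - 1 + 3 * κ / 4 with hr2
  have hr2p : 0 < r2 := by rw [hr2]; linarith
  have h21 : r2 < r1 := by rw [hr2, hr1]; linarith
  have h1r : r1 < r := by rw [hr1, hr]; linarith
  have hrR : r < R := by rw [hR, hr]; linarith
  have hRr : R ≤ 2 * r := by rw [hR, hr]; linarith
  have hlg : 0 < Real.log (R / r) := Real.log_pos (by rw [one_lt_div (by linarith)]; exact hrR)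
  have hlq : 0 ≤ Real.log (r / (R - r)) := Real.log_nonneg (by rw [one_le_div (by linarith)]; linarith)
  set K1 := 2 * M / Real.log (R / r) with hK1
  set K2 := 2 * (2 * M + 2 * M / Real.log (R / r) * Real.log (r / (R - r)) + 1) * r1 / (r - r1) / (r1 - r2)
    with hK2
  have hK1p : 0 < K1 := by positivity
  have hK2p : 0 ≤ K2 := by
    have : 0 < r - r1 := by linarith
    have : 0 < r1 - r2 := by linarith
    have : 0 < r1 := by linarith
    positivity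
  refine ⟨K1 + K2 + 1, by linarith, ?_⟩
  intro n G hn hG y δ z hy hGc hzi hzr hδ hδ1 hdist
  have hball : ∀ w ∈ closedBall (ρ + y * I : ℂ) R, 1 - κ ≤ w.re ∧ w.re ≤ 2 * ρ ∧ |w.im| ≤ 5 * ρ := by
    intro w hw
    rw [mem_closedBall, dist_eq_norm] at hw
    have h1 := (Complex.abs_re_le_norm _).trans hw
    have h2 := (Complex.abs_im_le_norm _).trans hw
    have e1 : (w - (ρ + y * I)).re = w.re - ρ := by simp
    have e2 : (w - (ρ + y * I)).im = w.im - y := by simp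
    rw [e1, abs_le] at h1
    rw [e2, abs_le] at h2
    rw [abs_le] at hy ⊢
    rw [hR] at h1 h2
    refine ⟨by linarith, by linarith, by linarith, by linarith⟩
  have hb : ∀ w ∈ closedBall (ρ + y * I : ℂ) R, ‖G w‖ ≤ Real.exp (M * n) := fun w hw => by
    obtain ⟨h1, h2, h3⟩ := hball w hw
    exact (hG w h1 h2 h3).2
  have ha : AnalyticOnNhd ℂ G (closedBall (ρ + y * I : ℂ) R) := fun w hw => by
    obtain ⟨h1, h2, h3⟩ := hball w hw
    exact (hG w h1 h2 h3).1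
  have hM1 : 1 ≤ Real.exp (M * n) := Real.one_le_exp (by positivity)
  have hcc := mem_closedBall_self (x := (ρ + y * I : ℂ)) (ε := R) (by linarith)
  have hGcM := hb _ hcc
  have hGc0 : 0 < ‖G (ρ + y * I)‖ := by linarith
  have hzb : z ∈ closedBall (ρ + y * I : ℂ) r2 := by
    rw [mem_closedBall, dist_eq_norm]
    have e3 : z - (ρ + y * I) = ((z.re - ρ : ℝ) : ℂ) := by
      apply Complex.ext <;> simp [hzi]
    rw [e3, Complex.norm_real]
    exact hzr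
  have hfin := H370.Loc.landau hr2p h21 h1r hrR hRr hM1 hGcM ha (norm_pos_iff.mp hGc0) hb z hzb δ hδ
    (fun w hw h0 => by
      obtain ⟨h1, h2, h3⟩ := hball w (closedBall_subset_closedBall hrR.le hw)
      exact hdist w h1 h2 h3 h0)
  refine ⟨hfin.1, hfin.2.trans ?_⟩
  have hB : Real.log (Real.exp (M * n) / ‖G (ρ + y * I)‖) ≤ 2 * M * n := by
    rw [Real.log_div (Real.exp_pos _).ne' hGc0.ne', Real.log_exp]
    have h4 : Real.log (1 / 2) ≤ Real.log ‖G (ρ + y * I)‖ := Real.log_le_log (by norm_num) hGc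
    rw [one_div, Real.log_inv] at h4
    have h5 := Real.log_two_lt_d9
    nlinarith
  have hB0 : 0 ≤ Real.log (Real.exp (M * n) / ‖G (ρ + y * I)‖) :=
    Real.log_nonneg (by rw [one_le_div hGc0]; exact hGcM)
  set B := Real.log (Real.exp (M * n) / ‖G (ρ + y * I)‖)
  have t1 : B / Real.log (R / r) / δ ≤ K1 * n / δ := by
    refine div_le_div_of_nonneg_right ?_ hδ.le
    rw [hK1, div_mul_eq_mul_div]
    exact div_le_div_of_nonneg_right hB hlg.le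
  have t2 : 2 * (B + B / Real.log (R / r) * Real.log (r / (R - r)) + 1) * r1 / (r - r1) / (r1 - r2) ≤
      K2 * n := by
    have s1 : B / Real.log (R / r) * Real.log (r / (R - r)) ≤
        2 * M / Real.log (R / r) * Real.log (r / (R - r)) * n := by
      have : B / Real.log (R / r) ≤ 2 * M * n / Real.log (R / r) := div_le_div_of_nonneg_right hB hlg.le
      calc _ ≤ 2 * M * n / Real.log (R / r) * Real.log (r / (R - r)) :=
            mul_le_mul_of_nonneg_right this hlq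
        _ = _ := by ring
    have s2 : 2 * (B + B / Real.log (R / r) * Real.log (r / (R - r)) + 1) * r1 ≤
        2 * (2 * M * n + 2 * M / Real.log (R / r) * Real.log (r / (R - r)) * n + n) * r1 := by
      refine mul_le_mul_of_nonneg_right ?_ (by linarith)
      linarith
    calc 2 * (B + B / Real.log (R / r) * Real.log (r / (R - r)) + 1) * r1 / (r - r1) / (r1 - r2) ≤
        2 * (2 * M * n + 2 * M / Real.log (R / r) * Real.log (r / (R - r)) * n + n) * r1 / (r - r1) / (r1 - r2) :=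
          div_le_div_of_nonneg_right (div_le_div_of_nonneg_right s2 (sub_nonneg.2 h1r.le)) (sub_nonneg.2 h21.le)
      _ = K2 * n := by rw [hK2]; ring
  have t3 : K2 * n ≤ K2 * n / δ := by
    rw [le_div_iff₀ hδ]
    have : 0 ≤ K2 * n := by positivity
    nlinarith
  have t4 : 0 ≤ n / δ := by positivity
  calc _ ≤ K1 * n / δ + K2 * n / δ := add_le_add t1 (t2.trans t3)
    _ = (K1 + K2) * (n / δ) := by ring
    _ ≤ (K1 + K2 + 1) * (n / δ) := mul_le_mul_of_nonneg_right (by linarith) t4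
    _ = (K1 + K2 + 1) * n / δ := by ring


lemma zeros_finite {K : Set ℂ} (hKc : IsCompact K) (hKpre : IsPreconnected K) {F : ℂ → ℂ}
    (hF : AnalyticOnNhd ℂ F K) {p : ℂ} (hp : p ∈ K) (hFp : F p ≠ 0) : Set.Finite {s | s ∈ K ∧ F s = 0} := by
  have hnt0 : ∀ s ∈ K, ¬ (∀ᶠ z in 𝓝 s, F z = 0) := fun s hs h1 =>
    hFp (hF.eqOn_zero_of_preconnected_of_eventuallyEq_zero hKpre hs h1 hp)
  have hnt : ∀ s ∈ K, ∀ᶠ z in 𝓝[≠] s, F z ≠ 0 := by
    intro s hs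
    rcases (hF s hs).eventually_eq_zero_or_eventually_ne_zero with h1 | h1
    · exact absurd h1 (hnt0 s hs)
    · exact h1
  by_contra hinf
  obtain ⟨z, hz, hacc⟩ := Set.Infinite.exists_accPt_of_subset_isCompact hinf hKc (fun s hs => hs.1)
  rw [accPt_iff_frequently_nhdsNE] at hacc
  have := hacc.and_eventually (hnt z hz)
  obtain ⟨w, hw⟩ := this.exists
  exact hw.2 hw.1.2

/-- `psi` on the circle. -/
lemma psi_inv_le {u Q r : ℝ} {w0 ξ : ℂ} (hu : 0 ≤ u) (hQ : 0 ≤ Q) (h : ‖ξ - w0‖ = r) :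
    ‖(psi u Q w0 ξ)⁻¹‖ ≤ Real.exp (u * r + Q * r ^ 2) := by
  rw [norm_inv, psi_norm, ← Real.exp_neg]
  refine Real.exp_le_exp.mpr ?_
  have h1 := Complex.abs_re_le_norm (ξ - w0)
  have h2 := Complex.abs_im_le_norm (ξ - w0)
  rw [h] at h1 h2
  have h3 := (abs_le.mp h1).1
  have h4 : (ξ - w0).im ^ 2 ≤ r ^ 2 := by
    rw [← sq_abs]
    exact pow_le_pow_left₀ (abs_nonneg _) h2 2
  nlinarith [sq_nonneg (ξ - w0).re, mul_nonneg hQ (sq_nonneg (ξ - w0).re),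
    mul_le_mul_of_nonneg_left h4 hQ, mul_le_mul_of_nonneg_left h3 hu]

/-- The exponents: left edge. -/
lemma exp_left {κ ρ A x r : ℝ} (hκ : 0 < κ) (hκ1 : κ ≤ 1 / 4) (hρ : 8 ≤ ρ) (hA : 0 ≤ A)
    (hx1 : κ / 2 ≤ x) (hx2 : x ≤ ρ / 2) (hr : 0 ≤ r) (hr8 : r ≤ κ / 8) :
    A / 4 * (-x) + A / (4 * ρ) * x ^ 2 + (A / 4 * r + A / (4 * ρ) * r ^ 2) ≤ -(A * κ / 16) := by
  have hρ0 : 0 < ρ := by linarith
  have e1 : A / 4 * (-x) + A / (4 * ρ) * x ^ 2 + (A / 4 * r + A / (4 * ρ) * r ^ 2) =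
      A / (4 * ρ) * (-(x * ρ) + x ^ 2 + r * ρ + r ^ 2) := by
    field_simp
    ring
  have e2 : -(A * κ / 16) = A / (4 * ρ) * (-(κ / 4 * ρ)) := by
    field_simp
    ring
  rw [e1, e2]
  refine mul_le_mul_of_nonneg_left ?_ (by positivity)
  have h1 : -(x * ρ) + x ^ 2 ≤ -(κ / 2 * ρ) + (κ / 2) ^ 2 := by nlinarith
  have h2 : r * ρ + r ^ 2 ≤ κ / 8 * ρ + (κ / 8) ^ 2 := by nlinarith
  nlinarith

/-- The exponents: top and bottom edges. -/
lemma exp_top {κ ρ A x y r : ℝ} (hκ : 0 < κ) (hκ1 : κ ≤ 1 / 4) (hρ : 8 ≤ ρ) (hA : 0 ≤ A)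
    (hx1 : -(ρ / 2) ≤ x) (hx2 : x ≤ ρ) (hy : (3 * ρ - 1) ^ 2 ≤ y ^ 2) (hr : 0 ≤ r) (hr8 : r ≤ κ / 8) :
    A / 4 * x + A / (4 * ρ) * (x ^ 2 - y ^ 2) + (A / 4 * r + A / (4 * ρ) * r ^ 2) ≤ -(A * κ / 16) := by
  have hρ0 : 0 < ρ := by linarith
  have e1 : A / 4 * x + A / (4 * ρ) * (x ^ 2 - y ^ 2) + (A / 4 * r + A / (4 * ρ) * r ^ 2) =
      A / (4 * ρ) * (x * ρ + (x ^ 2 - y ^ 2) + r * ρ + r ^ 2) := by
    field_simp
    ring
  have e2 : -(A * κ / 16) = A / (4 * ρ) * (-(κ / 4 * ρ)) := by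
    field_simp
    ring
  rw [e1, e2]
  refine mul_le_mul_of_nonneg_left ?_ (by positivity)
  have h1 : x ^ 2 ≤ ρ ^ 2 := by nlinarith
  have h2 : r * ρ + r ^ 2 ≤ κ / 8 * ρ + (κ / 8) ^ 2 := by nlinarith
  nlinarith

/-- The exponents: right edge. -/
lemma exp_right {κ ρ A x y r : ℝ} (hκ : 0 < κ) (hκ1 : κ ≤ 1 / 4) (hρ : 8 ≤ ρ) (hA : 0 ≤ A)
    (hx1 : 0 ≤ x) (hx2 : x ≤ ρ) (hr : 0 ≤ r) (hr8 : r ≤ κ / 8) :
    -(A * (ρ - 1)) + (A / 4 * x + A / (4 * ρ) * (x ^ 2 - y ^ 2) + (A / 4 * r + A / (4 * ρ) * r ^ 2)) ≤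
      -(A * κ / 16) := by
  have hρ0 : 0 < ρ := by linarith
  have e1 : -(A * (ρ - 1)) + (A / 4 * x + A / (4 * ρ) * (x ^ 2 - y ^ 2) + (A / 4 * r + A / (4 * ρ) * r ^ 2)) =
      A / (4 * ρ) * (-(4 * ρ * (ρ - 1)) + x * ρ + (x ^ 2 - y ^ 2) + r * ρ + r ^ 2) := by
    field_simp
    ring
  have e2 : -(A * κ / 16) = A / (4 * ρ) * (-(κ / 4 * ρ)) := by
    field_simp
    ring
  rw [e1, e2]
  refine mul_le_mul_of_nonneg_left ?_ (by positivity)
  have h1 : x ^ 2 ≤ ρ ^ 2 := by nlinarith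
  have h2 : r * ρ + r ^ 2 ≤ κ / 8 * ρ + (κ / 8) ^ 2 := by nlinarith
  nlinarith [sq_nonneg y]

end Pool.Agent.Zk3.CL
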