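import Pool.Agent.Zk3.CL.Asm
import Pool.Agent.Zk3.CL.LG
import Pool.Agent.Zk3.CL.Local2
import Pool.Agent.Zk3.CL.Count

set_option autoImplicit false

/-! Near the critical line: `δ` small. -/

namespace Pool.Agent.Zk3.CL

open Complex Filter Topology MeasureTheory Set
open Pool.Agent.H24R2.JP (XX HH Om)
open Pool.Agent.H24R2.DZ (ra)
open Pool.Agent.Zk1.DH
open Pool.Agent.Zk69.DH

lemma key {κ ε' B C3 ρ ρl ρ2 e C1 cl T t r Xb : ℝ} {K0 n : ℕ} {s : ℂ}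
    (hκ : 0 < κ) (hκ1 : κ ≤ 1 / 4) (hε : 0 ≤ ε') (hε1 : ε' ≤ 1) (hB : 1 ≤ B) (hρl : ρl = 4 * B + 18)
    (hρ : ρ = 5 * ρl) (hρ2 : 4 ≤ ρ2) (hρ2B : ρ2 ≤ B) (hK0 : 16 ≤ K0) (hKη : 40 / (K0 : ℝ) * (2 * ρ + 4) ≤ 1)
    (hn : K0 ^ 2 ≤ n) (he : 0 < e) (hL : 0 ≤ Real.log T)
    (hloc : ∀ (G : ℂ → ℂ) (w0 : ℂ),
      (∀ w : ℂ, 1 - κ / 2 ≤ w.re → w.re ≤ 2 * ρl → |w.im| ≤ 5 * ρl →
        AnalyticAt ℂ G w ∧ ‖G w‖ ≤ Real.exp ((B + 4) * n)) →
      (∀ w : ℂ, ρl / 2 - 1 ≤ w.re → w.re ≤ 2 * ρl → |w.im| ≤ 5 * ρl →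
        ‖G w - 1‖ ≤ Real.exp (-(1 / (K0 : ℝ) * n * w.re))) →
      G w0 = 0 → 1 ≤ w0.re → w0.re ≤ 2 * ρl → |w0.im| ≤ 1 →
      ∃ Z : Finset ℂ, cl * n ≤ Z.card ∧ ∀ z ∈ Z, G z = 0 ∧ 1 - κ / 2 ≤ z.re ∧ z.re ≤ 2 * ρl ∧ |z.im| ≤ 5 * ρl)
    (hLH : LH κ ε' (40 / K0) B C3 1 ρ ρ K0 n (FX t r) (F0 (T ^ (1 / K0 : ℝ)) t r) (Dk (T ^ (1 / K0 : ℝ)) T t r))
    (hZC : ZC T (ρ2 * r) (ρ + 4) (2 * e) C1 t) (hr : 0 < r) (hr1 : r ≤ 1) (ht : ρ + 2 ≤ t)
    (hs0 : riemannZeta s = 0) (hsre : 1 / 2 + r ≤ s.re) (hst : |s.im - t| ≤ r / 100)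
    (hfew : ∀ Z : Finset ℂ, (∀ z ∈ Z, riemannZeta z = 0 ∧ 1 / 2 + (1 - κ / 2) * r ≤ z.re ∧
      |z.im - s.im| ≤ (5 * ρl + 1) * r) → ∑ z ∈ Z, (analyticOrderNatAt riemannZeta z : ℝ) ≤ Xb) :
    cl * n ≤ Xb := by
  classical
  set X := T ^ (1 / K0 : ℝ) with hX
  set G : ℂ → ℂ := fun w => FX t r w / F0 X t r w with hG
  have hK0R : (16 : ℝ) ≤ K0 := by exact_mod_cast hK0
  have hη : 0 < 40 / (K0 : ℝ) := by positivity
  have hρ1 : 1 ≤ ρ := by linarith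
  have hrC : (r : ℂ) ≠ 0 := by exact_mod_cast hr.ne'
  have hLG := lh_G hLH hκ hκ1 hε hε1 hη hKη hρ1 hB (by omega) hn
  have hpos : ∀ w : ℂ, |w.im| ≤ 5 * ρl → 0 < t + r * w.im := by
    intro w hw
    have h1 : |r * w.im| ≤ 5 * ρl := by
      rw [abs_mul, abs_of_pos hr]
      calc r * |w.im| ≤ 1 * (5 * ρl) := mul_le_mul hr1 hw (abs_nonneg _) (by norm_num)
        _ = _ := one_mul _
    have h2 := (abs_le.mp h1).1
    linarith
  -- the base point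
  set w0 : ℂ := (s - 1 / 2 - I * t) / r with hw0
  have hsw : 1 / 2 + (I * t + r * w0) = s := by
    rw [hw0, mul_div_cancel₀ _ hrC]; ring
  have hw0re : w0.re = (s.re - 1 / 2) / r := by
    rw [hw0, Complex.div_ofReal_re]
    simp
  have hw0im : w0.im = (s.im - t) / r := by
    rw [hw0, Complex.div_ofReal_im]
    simp
  have hw0re1 : 1 ≤ w0.re := by
    rw [hw0re, le_div_iff₀ hr]; linarith
  have hw0im1 : |w0.im| ≤ 1 / 100 := by
    rw [hw0im, abs_div, abs_of_pos hr, div_le_iff₀ hr]; linarith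
  have hw0lt : w0.re < ρ2 := by
    by_contra hcon
    have h1 : ρ2 ≤ w0.re := not_lt.mp hcon
    have h2 : ρ2 * r ≤ (s - 1 / 2).re := by
      have e1 : (s - 1 / 2).re = w0.re * r := by
        rw [hw0re, div_mul_cancel₀ _ hr.ne']; simp
      rw [e1]
      exact mul_le_mul_of_nonneg_right h1 hr.le
    have h3 := hZC.ne (s - 1 / 2) h2 (by
      have e2 : (s - 1 / 2).im = s.im := by simp
      rw [e2]
      unfold wid
      have h4 : 1 ≤ Real.exp (2 * e * ((s - 1 / 2).re - ρ2 * r) * Real.log T) :=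
        Real.one_le_exp (mul_nonneg (mul_nonneg (by linarith) (by linarith)) hL)
      have h5 : r / 100 ≤ (ρ + 4) * (ρ2 * r) := by
        have : 1 ≤ (ρ + 4) * ρ2 := by nlinarith
        nlinarith
      have h6 : 0 ≤ (ρ + 4) * (ρ2 * r) := by positivity
      calc |s.im - t| ≤ (ρ + 4) * (ρ2 * r) * 1 := by linarith
        _ ≤ _ := mul_le_mul_of_nonneg_left h4 h6)
    apply h3
    have e3 : (1 : ℂ) / 2 + (s - 1 / 2) = s := by ring
    rw [e3]
    exact hs0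
  have hreg : ∀ w : ℂ, 1 - κ ≤ w.re → w.re ≤ ρ + 2 → |w.im| ≤ ρ + 1 → DifferentiableAt ℂ (F0 X t r) w ∧
      F0 X t r w ≠ 0 := fun w h1 h2 h3 => by
    obtain ⟨a1, a2, -⟩ := hLH.reg w h1 (by linarith) h3
    exact ⟨a1, a2⟩
  have H1 : ∀ w : ℂ, 1 - κ / 2 ≤ w.re → w.re ≤ 2 * ρl → |w.im| ≤ 5 * ρl →
      AnalyticAt ℂ G w ∧ ‖G w‖ ≤ Real.exp ((B + 4) * n) := by
    intro w h1 h2 h3
    refine ⟨?_, (hLG w (by linarith) (by linarith) (by linarith)).1⟩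
    have hball : ∀ z ∈ Metric.ball w (κ / 2), DifferentiableAt ℂ (F0 X t r) z ∧ F0 X t r z ≠ 0 := by
      intro z hz
      rw [Metric.mem_ball, dist_eq_norm] at hz
      have a1 := (Complex.abs_re_le_norm (z - w)).trans hz.le
      have a2 := (Complex.abs_im_le_norm (z - w)).trans hz.le
      rw [sub_re, abs_le] at a1
      rw [sub_im, abs_le] at a2
      have a3 := abs_le.mp h3
      refine hreg z (by linarith) (by linarith) ?_
      rw [abs_le]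
      constructor <;> linarith
    have hd : DifferentiableOn ℂ G (Metric.ball w (κ / 2)) := fun z hz =>
      ((hLH.diff z).div (hball z hz).1 (hball z hz).2).differentiableWithinAt
    exact hd.analyticAt (Metric.isOpen_ball.mem_nhds (Metric.mem_ball_self (by linarith)))
  have H2 : ∀ w : ℂ, ρl / 2 - 1 ≤ w.re → w.re ≤ 2 * ρl → |w.im| ≤ 5 * ρl →
      ‖G w - 1‖ ≤ Real.exp (-(1 / (K0 : ℝ) * n * w.re)) := by
    intro w h1 h2 h3
    exact (hLG w (by linarith) (by linarith) (by linarith)).2 (by linarith)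
  have H3 : G w0 = 0 := by
    show FX t r w0 / F0 X t r w0 = 0
    rw [FX_eq (hpos w0 (by linarith)), hsw, hs0, mul_zero, zero_div]
  obtain ⟨Z, hZ1, hZ2⟩ := hloc G w0 H1 H2 H3 hw0re1 (by linarith) (by linarith)
  set Z' : Finset ℂ := Z.image (fun w => 1 / 2 + (I * t + r * w)) with hZ'
  have hinj : Function.Injective (fun w : ℂ => 1 / 2 + (I * t + r * w)) := by
    intro a b hab
    have h1 : 1 / 2 + (I * t + r * a) = 1 / 2 + (I * t + r * b) := hab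
    have h2 : (r : ℂ) * a = r * b := by linear_combination h1
    exact mul_left_cancel₀ hrC h2
  have hcard : Z'.card = Z.card := Finset.card_image_of_injective _ hinj
  have hzero : ∀ w ∈ Z, riemannZeta (1 / 2 + (I * t + r * w)) = 0 := by
    intro w hw
    obtain ⟨h1, h2, h3, h4⟩ := hZ2 w hw
    have h5 := (hreg w (by linarith) (by linarith) (by linarith)).2
    have h6 : FX t r w = 0 := by
      rcases div_eq_zero_iff.mp h1 with h | h
      · exact h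
      · exact absurd h h5
    rw [FX_eq (hpos w h4)] at h6
    rcases mul_eq_zero.mp h6 with h | h
    · exfalso
      apply h5
      unfold F0
      rw [h, zero_mul]
    · exact h
  have hmem : ∀ z ∈ Z', riemannZeta z = 0 ∧ 1 / 2 + (1 - κ / 2) * r ≤ z.re ∧
      |z.im - s.im| ≤ (5 * ρl + 1) * r := by
    intro z hz
    obtain ⟨w, hw, rfl⟩ := Finset.mem_image.mp hz
    obtain ⟨h1, h2, h3, h4⟩ := hZ2 w hw
    refine ⟨hzero w hw, ?_, ?_⟩
    · have : (1 / 2 + (I * t + r * w) : ℂ).re = 1 / 2 + r * w.re := hp_re t r w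
      rw [this]
      nlinarith
    · have e4 : (1 / 2 + (I * t + r * w) : ℂ).im = t + r * w.im := by simp
      rw [e4]
      have h5 : |r * w.im| ≤ r * (5 * ρl) := by
        rw [abs_mul, abs_of_pos hr]
        exact mul_le_mul_of_nonneg_left h4 hr.le
      have h6 := abs_le.mp h5
      have h7 := abs_le.mp hst
      rw [abs_le]
      constructor <;> nlinarith [h6.1, h6.2, h7.1, h7.2]
  have hne : ∀ z ∈ Z', riemannZeta z = 0 ∧ z ≠ 1 := by
    intro z hz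
    refine ⟨(hmem z hz).1, ?_⟩
    rintro rfl
    exact riemannZeta_one_ne_zero (hmem 1 hz).1
  calc cl * n ≤ (Z.card : ℝ) := hZ1
    _ = (Z'.card : ℝ) := by rw [hcard]
    _ ≤ ∑ z ∈ Z', (analyticOrderNatAt riemannZeta z : ℝ) := card_le_mult hne
    _ ≤ Xb := hfew Z' hmem

end Pool.Agent.Zk3.CL
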