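import Pool.Agent.Zk3.CL.Micro

set_option autoImplicit false

/-! Near the critical line: the counting bound in a dyadic window. -/

namespace Pool.Agent.Zk3.CL

open Complex Filter Topology MeasureTheory Set
open Pool.Agent.H24R2.JP (XX HH Om)
open Pool.Agent.H24R2.DZ (ra)
open Pool.Agent.Zk1.DH
open Pool.Agent.Zk69.DH

theorem micro (hMP : S_MP) (hMP0 : S_MP0) (hMD : S_MD) (hMD0 : S_MD0) (hZC : S_ZC) (hNG : S_NG)
    (hZP : S_ZP) {ε : ℝ} (hε : 0 < ε) (hε1 : ε ≤ 1) :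
    ∃ A c κ1 l0 C T0 : ℝ, 1 ≤ A ∧ 0 < c ∧ 0 < κ1 ∧ κ1 ≤ 1 ∧ 0 < l0 ∧ 0 < C ∧ 2 ≤ T0 ∧
    ∀ T δ : ℝ, T0 ≤ T → 0 < δ → δ ≤ κ1 → l0 ≤ δ * Real.log T →
    ∀ S : Finset ℂ, (∀ s ∈ S, riemannZeta s = 0 ∧ 1 / 2 + δ ≤ s.re ∧ T < s.im ∧ s.im ≤ 2 * T ∧
      Few ε A δ s.im (c * δ * Real.log T)) →
    ∑ s ∈ S, (analyticOrderNatAt riemannZeta s : ℝ) ≤
      C * T * Real.exp (-((2 - ε) * δ * Real.log T)) * Real.log T := by
  classical
  obtain ⟨κ, hκe⟩ : ∃ κ : ℝ, κ = ε / 8 := ⟨_, rfl⟩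
  have hκ : 0 < κ := by linarith
  have hκ8 : κ ≤ 1 / 8 := by linarith
  obtain ⟨κt, hκt⟩ : ∃ κt : ℝ, κt = 4 - 2 * ε := ⟨_, rfl⟩
  obtain ⟨B, ρ2, hB1, hρ2, hρ2B, hasm⟩ := lh_ok hMP hMP0 hMD hMD0 hZC hNG hZP (κt := κt) (ε := κ) (κ := κ)
    hκ (by linarith) hκ (by linarith) (by linarith) (by nlinarith)
  obtain ⟨ρl, hρl⟩ : ∃ ρl : ℝ, ρl = 4 * B + 18 := ⟨_, rfl⟩
  obtain ⟨ρ, hρ⟩ : ∃ ρ : ℝ, ρ = 5 * ρl := ⟨_, rfl⟩
  obtain ⟨K0, e, C1, C3, κ1, hK16, hKη, he, hκ1, hκ11, C, T0, n0, hC, hT0, hSm⟩ := hasm ρ (by linarith)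
  have hK0R : (16 : ℝ) ≤ K0 := by exact_mod_cast hK16
  obtain ⟨cl, nl, hcl, hnl, hloc⟩ := local_thm (κ := κ / 2) (ρ := ρl) (a := 1 / (K0 : ℝ)) (M := B + 4)
    (by linarith) (by linarith) (by linarith) (by positivity) (by rw [div_le_one (by linarith)]; linarith)
    (by linarith)
  obtain ⟨l0, hl0⟩ : ∃ l0 : ℝ, l0 = 4 + 4 / ε + 2 * (n0 + 1) + 2 * (nl + 2) + 2 * ((K0 : ℝ) ^ 2 + 1) := ⟨_, rfl⟩
  have hn00 : (0 : ℝ) ≤ n0 := Nat.cast_nonneg _
  have h4ε : 0 < 4 / ε := by positivity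
  refine ⟨5 * ρl + 1, cl / 8, κ1, l0, C * Real.exp κt * 200 * (cl / 8) , max T0 (2 * ρ + 6), by linarith, by positivity,
    hκ1, hκ11, by rw [hl0]; positivity, by positivity, hT0.trans (le_max_left _ _), ?_⟩
  intro T δ hT hδ hδκ hlam S hS
  have hT1 : T0 ≤ T := (le_max_left _ _).trans hT
  have hT2 : 2 * ρ + 6 ≤ T := (le_max_right _ _).trans hT
  have hT0' : 2 ≤ T := hT0.trans hT1
  have hTp : 0 < T := by linarith
  obtain ⟨L, hLe⟩ : ∃ L : ℝ, L = Real.log T := ⟨_, rfl⟩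
  have hL : 0 < L := by rw [hLe]; exact Real.log_pos (by linarith)
  rw [← hLe] at hlam hS ⊢
  obtain ⟨n, hne⟩ : ∃ n : ℕ, n = ⌊δ * L / 2⌋₊ := ⟨_, rfl⟩
  have hn1 : (n : ℝ) ≤ δ * L / 2 := by rw [hne]; exact Nat.floor_le (by positivity)
  have hn2 : δ * L / 2 < n + 1 := by rw [hne]; exact Nat.lt_floor_add_one _
  have hnn0 : n0 ≤ n := by
    have : (n0 : ℝ) < n + 1 := by nlinarith [sq_nonneg (K0 : ℝ)]
    have : n0 < n + 1 := by exact_mod_cast this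
    omega
  have hnK : K0 ^ 2 ≤ n := by
    have : ((K0 ^ 2 : ℕ) : ℝ) < ((n + 1 : ℕ) : ℝ) := by
      push_cast
      linarith
    have : K0 ^ 2 < n + 1 := by exact_mod_cast this
    omega
  have hnnl : nl ≤ n := by nlinarith [sq_nonneg (K0 : ℝ)]
  have hnp : 1 ≤ n := by
    have : (1 : ℝ) ≤ n := by linarith
    exact_mod_cast this
  have hnκ : (n : ℝ) ≤ κ1 * Real.log T := by rw [← hLe]; nlinarith
  -- the scale
  obtain ⟨r, hre⟩ : ∃ r : ℝ, r = ra T n := ⟨_, rfl⟩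
  have hr : 0 < r := by rw [hre]; exact ra_pos hT0' hnp
  have hrL : r * L = 2 * n := by rw [hre, hLe]; exact ra_L n hT0'
  have hrδ : r ≤ δ := by
    have : r * L ≤ δ * L := by linarith
    exact le_of_mul_le_mul_right this hL
  have hδr : δ * L - 2 ≤ r * L := by linarith
  have hrδ2 : δ ≤ 2 * r := by
    have : δ * L ≤ 2 * r * L := by nlinarith
    exact le_of_mul_le_mul_right this hL
  have hleft : (1 - ε) * δ ≤ (1 - κ / 2) * r := by
    have h1 : 4 ≤ ε * (δ * L) := by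
      have : 4 / ε ≤ δ * L := by nlinarith [sq_nonneg (K0 : ℝ)]
      rw [div_le_iff₀ hε] at this
      linarith
    have h2 : (1 - ε) * δ * L ≤ (1 - κ / 2) * r * L := by
      have h3 : (1 - κ / 2) * (δ * L - 2) ≤ (1 - κ / 2) * (r * L) :=
        mul_le_mul_of_nonneg_left hδr (by linarith)
      have h4 : 0 ≤ ε * (δ * L) := by positivity
      nlinarith
    exact le_of_mul_le_mul_right h2 hL
  have hmeas := hSm T n hT1 hnn0 hnκ
  beta_reduce at hmeas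
  rw [← hre] at hmeas
  have hcount := count (S := S) (m := fun s => (analyticOrderNatAt riemannZeta s : ℝ)) (h := r / 100)
    (X := cl / 8 * δ * L) (by positivity) (fun _ _ => Nat.cast_nonneg _) hmeas (by positivity) (by positivity) ?_ ?_
  · refine hcount.trans ?_
    have e1 : C * T * Real.exp (-(κt * n)) / (r / 100) * (cl / 8 * δ * L) =
        C * (cl / 8) * 100 * T * L * Real.exp (-(κt * n)) * (δ / r) := by
      field_simp
    have e2 : δ / r ≤ 2 := by rw [div_le_iff₀ hr]; exact hrδ2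
    have e3 : Real.exp (-(κt * n)) ≤ Real.exp κt * Real.exp (-((2 - ε) * δ * L)) := by
      rw [← Real.exp_add]
      refine Real.exp_le_exp.mpr ?_
      have : 0 ≤ κt := by linarith
      have h5 : κt * (δ * L / 2) ≤ κt * (n + 1) := mul_le_mul_of_nonneg_left hn2.le this
      rw [hκt] at h5 ⊢
      nlinarith
    rw [e1]
    have e4 : 0 ≤ C * (cl / 8) * 100 * T * L := by positivity
    calc C * (cl / 8) * 100 * T * L * Real.exp (-(κt * n)) * (δ / r)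
        ≤ C * (cl / 8) * 100 * T * L * (Real.exp κt * Real.exp (-((2 - ε) * δ * L))) * 2 := by
          refine mul_le_mul (mul_le_mul_of_nonneg_left e3 e4) e2 (by positivity) (by positivity)
      _ = _ := by ring
  · intro s hs t ht
    obtain ⟨h1, h2, h3, h4, h5⟩ := hS s hs
    have hr1 : r ≤ 1 := by linarith
    refine ⟨by linarith [ht.1], by linarith [ht.2], ?_⟩
    rintro ⟨hLH, hZCt⟩
    have hst : |s.im - t| ≤ r / 100 := by
      rw [abs_le]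
      constructor <;> linarith [ht.1, ht.2]
    have hk := key (cl := cl) (Xb := cl / 8 * δ * L) hκ (by linarith) hκ.le (by linarith) hB1 hρl hρ hρ2 hρ2B hK16
      hKη hnK he (by rw [← hLe]; exact hL.le)
      (fun G w0 => hloc n G w0 hnnl) hLH hZCt hr hr1 (by linarith [ht.1]) h1 (by linarith) hst ?_
    · nlinarith
    · intro Z hZ
      refine h5 Z fun z hz => ?_
      obtain ⟨g1, g2, g3⟩ := hZ z hz
      refine ⟨g1, by linarith, g3.trans ?_⟩
      exact mul_le_mul_of_nonneg_left hrδ (by linarith)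
  · intro s hs
    obtain ⟨h1, h2, h3, h4, h5⟩ := hS s hs
    refine h5 _ fun z hz => ?_
    rw [Finset.mem_filter] at hz
    obtain ⟨g1, g2, g3, g4, -⟩ := hS z hz.1
    refine ⟨g1, by nlinarith, hz.2.trans ?_⟩
    nlinarith

end Pool.Agent.Zk3.CL
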