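import Pool.Agent.Zk3.CL.Scales

set_option autoImplicit false

/-! Finite sets of zeros and finite sums. -/

namespace Pool.Agent.Zk3.CL

open Complex Filter Topology Set
open Pool.Agent.Y24 (ZZ ZZ_fin)

lemma zeros_fin (R : ℝ) : {z : ℂ | riemannZeta z = 0 ∧ 0 ≤ z.re ∧ |z.im| ≤ R}.Finite := by
  have hK : IsCompact (Set.Icc (0 : ℝ) 1 ×ℂ Set.Icc (-R) R) := isCompact_Icc.reProdIm isCompact_Icc
  by_contra hinf
  have hsub : {z : ℂ | riemannZeta z = 0 ∧ 0 ≤ z.re ∧ |z.im| ≤ R} ⊆ Set.Icc (0 : ℝ) 1 ×ℂ Set.Icc (-R) R := by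
    rintro ρ ⟨h1, h2, h3⟩
    exact ⟨⟨h2, (Pool.Agent.Y24.re_lt_one h1).le⟩, abs_le.mp h3⟩
  obtain ⟨z₀, _, hz₀⟩ := Set.Infinite.exists_accPt_of_subset_isCompact hinf hK hsub
  have han : AnalyticOnNhd ℂ Pool.Agent.Y24.Z1 Set.univ := fun z _ => Pool.Agent.Y24.Z1_diff.analyticAt z
  have hfr : ∃ᶠ z in 𝓝[≠] z₀, Pool.Agent.Y24.Z1 z = 0 := by
    have h1 := accPt_iff_frequently_nhdsNE.mp hz₀
    refine h1.mono fun z hz => ?_
    have hz1 : z ≠ 1 := by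
      rintro rfl
      exact riemannZeta_one_ne_zero hz.1
    rw [Pool.Agent.Y24.Z1_ne hz1, hz.1, mul_zero]
  have h2 := han.eqOn_zero_of_preconnected_of_frequently_eq_zero isPreconnected_univ
    (Set.mem_univ z₀) hfr (Set.mem_univ (2:ℂ))
  simp only [Pi.zero_apply] at h2
  rw [Pool.Agent.Y24.Z1_ne (by norm_num)] at h2
  have h3 : riemannZeta 2 ≠ 0 := riemannZeta_ne_zero_of_one_le_re (by norm_num)
  have h4 : (2:ℂ) - 1 ≠ 0 := by norm_num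
  exact (mul_ne_zero h4 h3) h2

lemma num_eq {S : Set ℂ} (hS : S.Finite) : ((∑ᶠ s ∈ S, analyticOrderNatAt riemannZeta s : ℕ) : ℝ) =
    ∑ s ∈ hS.toFinset, (analyticOrderNatAt riemannZeta s : ℝ) := by
  rw [finsum_mem_eq_finite_toFinset_sum _ hS]
  push_cast
  rfl

lemma few_of_num {ε A r y X : ℝ} (hε : ε ≤ 1) (hr : 0 ≤ r)
    (h : ((∑ᶠ s ∈ {z : ℂ | riemannZeta z = 0 ∧ 1 / 2 + (1 - ε) * r ≤ z.re ∧ |z.im - y| ≤ A * r},
      analyticOrderNatAt riemannZeta s : ℕ) : ℝ) ≤ X) : Few ε A r y X := by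
  have hfin : {z : ℂ | riemannZeta z = 0 ∧ 1 / 2 + (1 - ε) * r ≤ z.re ∧ |z.im - y| ≤ A * r}.Finite := by
    refine (zeros_fin (A * r + |y|)).subset ?_
    rintro z ⟨h1, h2, h3⟩
    refine ⟨h1, ?_, ?_⟩
    · have : 0 ≤ (1 - ε) * r := mul_nonneg (by linarith) hr
      linarith
    · have := abs_add_le (z.im - y) y
      rw [sub_add_cancel] at this
      linarith
  rw [num_eq hfin] at h
  intro Z hZ
  refine le_trans (Finset.sum_le_sum_of_subset_of_nonneg ?_ fun _ _ _ => Nat.cast_nonneg _) h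
  intro z hz
  rw [Set.Finite.mem_toFinset]
  exact hZ z hz

end Pool.Agent.Zk3.CL
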