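import Pool.Agent.Zk3.CL.All

set_option autoImplicit false

/-! All scales between `δ` and `β - 1/2`. -/

namespace Pool.Agent.Zk3.CL

open Complex Filter Topology MeasureTheory Set
open Pool.Agent.Y24 (ZZ ZZ_fin)

lemma Few.scale {ε ε1 q A d r y X X' : ℝ} (h : Few ε A r y X) (hA : 0 ≤ A) (hd : d ≤ r) (hd0 : 0 ≤ d)
    (hr : r ≤ (1 + q) * d) (hε : (1 - ε) * (1 + q) ≤ 1 - ε1) (hε1 : ε ≤ 1) (hX : X ≤ X') :
    Few ε1 A d y X' := fun Z hZ =>
  (h Z fun z hz => by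
    obtain ⟨h1, h2, h3⟩ := hZ z hz
    refine ⟨h1, ?_, h3.trans (mul_le_mul_of_nonneg_left hd hA)⟩
    have e1 : (1 - ε) * r ≤ (1 - ε) * ((1 + q) * d) := mul_le_mul_of_nonneg_left hr (by linarith)
    have e2 : (1 - ε) * (1 + q) * d ≤ (1 - ε1) * d := mul_le_mul_of_nonneg_right hε hd0
    linarith).trans hX

/-- The density hypothesis outside the zeros crowded at every scale (finite form). -/
theorem scales {ε : ℝ} (hε : 0 < ε) (hε1 : ε ≤ 1) :
    ∃ A c : ℝ, 1 ≤ A ∧ 0 < c ∧ ∀ K : ℝ, ∃ C : ℝ, 0 < C ∧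
    ∀ T δ : ℝ, 2 ≤ T → 0 ≤ δ → δ ≤ 1 / 2 →
    ∀ S : Finset ℂ, (∀ s ∈ S, riemannZeta s = 0 ∧ 0 < s.im ∧ s.im ≤ T ∧
      ∃ r : ℝ, δ ≤ r ∧ 1 / 2 + r ≤ s.re ∧ Few ε A r s.im (K + c * r * Real.log s.im)) →
    ∑ s ∈ S, (analyticOrderNatAt riemannZeta s : ℝ) ≤
      C * T ^ (1 - (2 - ε) * δ) * Real.log T := by
  obtain ⟨A, c1, hA, hc1, hm⟩ := main (ε := ε / 2) (by linarith) (by linarith)
  obtain ⟨C3, hC3, htot⟩ := Pool.Agent.Y24.total_count
  refine ⟨A, c1 / 2, hA, by linarith, fun K => ?_⟩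
  obtain ⟨C1, hC1, hmK⟩ := hm K
  obtain ⟨q, hq⟩ : ∃ q : ℝ, q = ε / 4 := ⟨_, rfl⟩
  have hq0 : 0 < q := by linarith
  have hq1 : q ≤ 1 / 4 := by linarith
  obtain ⟨Q, hQ⟩ : ∃ Q : ℝ, Q = Real.exp (-q) := ⟨_, rfl⟩
  have hQ0 : 0 < Q := by rw [hQ]; exact Real.exp_pos _
  have hQ1 : Q < 1 := by rw [hQ, Real.exp_lt_one_iff]; linarith
  have hQ2 : 0 < (1 - Q)⁻¹ := inv_pos.mpr (by linarith)
  refine ⟨C3 * Real.exp 2 + C3 * 2 + C1 * (1 - Q)⁻¹, by positivity, ?_⟩
  intro T δ hT hδ hδ2 S hS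
  classical
  have hTp : 0 < T := by linarith
  have hL : 0 < Real.log T := Real.log_pos (by linarith)
  obtain ⟨P, hP⟩ : ∃ P : ℝ, P = T ^ (1 - (2 - ε) * δ) := ⟨_, rfl⟩
  have hα : 0 ≤ 1 - (2 - ε) * δ := by
    have := mul_le_mul_of_nonneg_left hδ2 (show 0 ≤ 2 - ε by linarith)
    linarith
  have hP1 : 1 ≤ P := by rw [hP]; exact Real.one_le_rpow (by linarith) hα
  have hP0 : 0 < P := by linarith
  have hPL : 0 < P * Real.log T := by positivity
  rw [← hP]
  have h2e := Real.exp_pos 2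
  rcases lt_or_ge (δ * Real.log T) 1 with hsm | hbig
  · have h1 := htot T hT S (fun s hs => by
      obtain ⟨h1, h2, h3, r, h4, h5, -⟩ := hS s hs
      exact ⟨h1, by linarith, h2, h3⟩)
    have h2 : T ≤ Real.exp 2 * P := by
      rw [hP, Real.rpow_def_of_pos hTp, ← Real.exp_add]
      nth_rewrite 1 [← Real.exp_log hTp]
      refine Real.exp_le_exp.mpr ?_
      have : 0 ≤ δ * Real.log T := by positivity
      nlinarith
    calc _ ≤ C3 * T * Real.log T := h1
      _ ≤ C3 * (Real.exp 2 * P) * Real.log T := by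
          refine mul_le_mul_of_nonneg_right (mul_le_mul_of_nonneg_left h2 hC3.le) hL.le
      _ = C3 * Real.exp 2 * (P * Real.log T) := by ring
      _ ≤ (C3 * Real.exp 2 + C3 * 2 + C1 * (1 - Q)⁻¹) * (P * Real.log T) := by
          refine mul_le_mul_of_nonneg_right ?_ hPL.le
          have : 0 ≤ C3 * 2 + C1 * (1 - Q)⁻¹ := by positivity
          linarith
      _ = _ := by ring
  have hδp : 0 < δ := by
    rcases hδ.lt_or_eq with h | h
    · exact h
    · exfalso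
      rw [← h, zero_mul] at hbig
      linarith
  -- low zeros
  have hsplit := Finset.sum_filter_add_sum_filter_not S (fun s => s.im ≤ 2)
    (fun s => (analyticOrderNatAt riemannZeta s : ℝ))
  have hlow : ∑ s ∈ S.filter (fun s => s.im ≤ 2), (analyticOrderNatAt riemannZeta s : ℝ) ≤
      C3 * 2 * (P * Real.log T) := by
    have h1 := htot 2 le_rfl (S.filter (fun s => s.im ≤ 2)) (fun s hs => by
      rw [Finset.mem_filter] at hs
      obtain ⟨h1, h2, h3, r, h4, h5, -⟩ := hS s hs.1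
      exact ⟨h1, by linarith, h2, hs.2⟩)
    refine h1.trans (mul_le_mul_of_nonneg_left ?_ (by positivity))
    have h2 : Real.log 2 ≤ Real.log T := Real.log_le_log (by norm_num) hT
    calc Real.log 2 ≤ Real.log T := h2
      _ = 1 * Real.log T := (one_mul _).symm
      _ ≤ P * Real.log T := mul_le_mul_of_nonneg_right hP1 hL.le
  -- high zeros
  obtain ⟨S', hS'⟩ : ∃ S' : Finset ℂ, S' = S.filter (fun s => ¬ s.im ≤ 2) := ⟨_, rfl⟩
  have hj : ∀ s : ℂ, ∃ j : ℕ, s ∈ S' → ∃ r : ℝ, δ ≤ r ∧ 1 / 2 + r ≤ s.re ∧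
      Few ε A r s.im (K + c1 / 2 * r * Real.log s.im) ∧ (1 + q) ^ j * δ ≤ r ∧ r ≤ (1 + q) ^ (j + 1) * δ := by
    intro s
    by_cases hs : s ∈ S'
    · have hs' := hs
      rw [hS', Finset.mem_filter] at hs'
      obtain ⟨-, -, -, r, h4, h5, h6⟩ := hS s hs'.1
      obtain ⟨j, hj1, hj2⟩ := exists_nat_pow_near (x := r / δ) (y := 1 + q)
        (by rw [le_div_iff₀ hδp]; linarith) (by linarith)
      rw [le_div_iff₀ hδp] at hj1
      rw [div_lt_iff₀ hδp] at hj2
      exact ⟨j, fun _ => ⟨r, h4, h5, h6, hj1, hj2.le⟩⟩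
    · exact ⟨0, fun h => absurd h hs⟩
  choose j hj' using hj
  obtain ⟨J, hJ⟩ : ∃ J : Finset ℕ, J = S'.image j := ⟨_, rfl⟩
  have hfib : ∑ s ∈ S', (analyticOrderNatAt riemannZeta s : ℝ) =
      ∑ i ∈ J, ∑ s ∈ S'.filter (fun s => j s = i), (analyticOrderNatAt riemannZeta s : ℝ) := by
    rw [Finset.sum_fiberwise_of_maps_to (fun s hs => by rw [hJ]; exact Finset.mem_image_of_mem j hs)]
  have hone : ∀ i ∈ J, ∑ s ∈ S'.filter (fun s => j s = i), (analyticOrderNatAt riemannZeta s : ℝ) ≤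
      C1 * (P * Real.log T) * Q ^ i := by
    intro i hi
    rw [hJ] at hi
    obtain ⟨s0, hs0, hs0i⟩ := Finset.mem_image.mp hi
    obtain ⟨d, hd⟩ : ∃ d : ℝ, d = (1 + q) ^ i * δ := ⟨_, rfl⟩
    have hpow : 1 + i * q ≤ (1 + q) ^ i := one_add_mul_le_pow (by linarith) i
    have hiq : 0 ≤ (i : ℝ) * q := by positivity
    have hd0 : 0 < d := by rw [hd]; positivity
    have hd1 : d ≤ 1 / 2 := by
      obtain ⟨r, h1, h2, h3, h4, h5⟩ := hj' s0 hs0
      rw [hs0i, ← hd] at h4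
      have hs0' := hs0
      rw [hS', Finset.mem_filter] at hs0'
      have h6 := Pool.Agent.Y24.re_lt_one (hS s0 hs0'.1).1
      linarith
    have h1 := hmK T d hT hd0.le hd1 (S'.filter (fun s => j s = i)) (fun s hs => by
      rw [Finset.mem_filter] at hs
      obtain ⟨hs1, hsi⟩ := hs
      obtain ⟨r, h1, h2, h3, h4, h5⟩ := hj' s hs1
      rw [hsi, ← hd] at h4
      rw [hsi, pow_succ, mul_comm _ (1 + q), mul_assoc, ← hd] at h5
      have hs' := hs1
      rw [hS', Finset.mem_filter] at hs'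
      obtain ⟨g1, g2, g3, -⟩ := hS s hs'.1
      have hlog : 0 ≤ Real.log s.im := Real.log_nonneg (by linarith [not_le.mp hs'.2])
      refine ⟨g1, by linarith, g2, g3, h3.scale (q := q) (by linarith) h4 hd0.le h5 ?_ hε1 ?_⟩
      · rw [hq]; nlinarith
      · have e1 : c1 / 2 * r ≤ c1 * d := by
          have e2 : (1 + q) * d ≤ 2 * d := mul_le_mul_of_nonneg_right (by linarith) hd0.le
          have e3 : c1 / 2 * r ≤ c1 / 2 * (2 * d) := mul_le_mul_of_nonneg_left (h5.trans e2) (by linarith)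
          linarith
        have e4 := mul_le_mul_of_nonneg_right e1 hlog
        linarith)
    refine h1.trans ?_
    have h2 : T ^ (1 - (2 - ε / 2) * d) ≤ P * Q ^ i := by
      rw [hP, Real.rpow_def_of_pos hTp, Real.rpow_def_of_pos hTp, hQ, ← Real.exp_nat_mul, ← Real.exp_add]
      refine Real.exp_le_exp.mpr ?_
      have e1 : δ + i * q * δ ≤ d := by
        rw [hd]
        have := mul_le_mul_of_nonneg_right hpow hδp.le
        linarith
      have e2 : (2 - ε / 2) * (δ + i * q * δ) ≤ (2 - ε / 2) * d := mul_le_mul_of_nonneg_left e1 (by linarith)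
      have e3 : (2 - ε) * δ + i * q * δ ≤ (2 - ε / 2) * (δ + i * q * δ) := by
        have e4 : (2 - ε / 2) * (δ + i * q * δ) - ((2 - ε) * δ + i * q * δ) =
            ε / 2 * δ + (1 - ε / 2) * (i * q * δ) := by ring
        have e5 : 0 ≤ ε / 2 * δ := by positivity
        have e6 : 0 ≤ (1 - ε / 2) * (i * q * δ) := mul_nonneg (by linarith) (by positivity)
        linarith
      have e7 := mul_le_mul_of_nonneg_left (e3.trans e2) hL.le
      have e8 : (i : ℝ) * q * 1 ≤ i * q * (δ * Real.log T) := mul_le_mul_of_nonneg_left hbig hiq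
      have e9 : Real.log T * ((2 - ε) * δ + i * q * δ) =
        Real.log T * ((2 - ε) * δ) + i * q * (δ * Real.log T) := by ring
      have e10 : Real.log T * (1 - (2 - ε / 2) * d) = Real.log T - Real.log T * ((2 - ε / 2) * d) := by ring
      have e11 : Real.log T * (1 - (2 - ε) * δ) = Real.log T - Real.log T * ((2 - ε) * δ) := by ring
      rw [e10, e11]
      linarith
    calc C1 * T ^ (1 - (2 - ε / 2) * d) * Real.log T ≤ C1 * (P * Q ^ i) * Real.log T :=
          mul_le_mul_of_nonneg_right (mul_le_mul_of_nonneg_left h2 hC1.le) hL.le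
      _ = _ := by ring
  have hgeom : ∑ i ∈ J, Q ^ i ≤ (1 - Q)⁻¹ := by
    rw [← tsum_geometric_of_lt_one hQ0.le hQ1]
    exact Summable.sum_le_tsum J (fun i _ => pow_nonneg hQ0.le i) (summable_geometric_of_lt_one hQ0.le hQ1)
  have hhigh : ∑ s ∈ S', (analyticOrderNatAt riemannZeta s : ℝ) ≤ C1 * (P * Real.log T) * (1 - Q)⁻¹ := by
    rw [hfib]
    calc _ ≤ ∑ i ∈ J, C1 * (P * Real.log T) * Q ^ i := Finset.sum_le_sum hone
      _ = C1 * (P * Real.log T) * ∑ i ∈ J, Q ^ i := by rw [Finset.mul_sum]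
      _ ≤ _ := mul_le_mul_of_nonneg_left hgeom (by positivity)
  rw [← hsplit, ← hS']
  have h3 : 0 ≤ C3 * Real.exp 2 * (P * Real.log T) := by positivity
  calc _ ≤ C3 * 2 * (P * Real.log T) + C1 * (P * Real.log T) * (1 - Q)⁻¹ := add_le_add hlow hhigh
    _ ≤ C3 * Real.exp 2 * (P * Real.log T) + (C3 * 2 * (P * Real.log T) + C1 * (P * Real.log T) * (1 - Q)⁻¹) := by
        linarith
    _ = _ := by ring

end Pool.Agent.Zk3.CL
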